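import Pool.Agent.Run7.h462.Tile

open MeasureTheory ENNReal Filter Topology

namespace Run7.h462

theorem holder_ball {p q : ℝ} (hq : 0 < q) (hqp : q ≤ p) {h : ℂ → ℂ} (hm : Measurable h)
    (B : Set ℂ) :
    ∫⁻ z in B, ‖h z‖ₑ ^ q ≤ ((N p h) ^ (1 / p) * volume B ^ (1 / q - 1 / p)) ^ q := by
  have hp : 0 < p := hq.trans_le hqp
  have h1 := eLpNorm'_le_eLpNorm'_mul_rpow_measure_univ (μ := (volume : Measure ℂ).restrict B)
    (f := h) hq hqp hm.aestronglyMeasurable
  rw [Measure.restrict_apply_univ] at h1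
  have h2 := ENNReal.rpow_le_rpow h1 hq.le
  have h3 : eLpNorm' h q ((volume : Measure ℂ).restrict B) ^ q = ∫⁻ z in B, ‖h z‖ₑ ^ q := by
    unfold eLpNorm'
    rw [← ENNReal.rpow_mul, one_div, inv_mul_cancel₀ hq.ne', ENNReal.rpow_one]
  rw [h3] at h2
  refine h2.trans (ENNReal.rpow_le_rpow ?_ hq.le)
  gcongr
  unfold eLpNorm' N
  refine ENNReal.rpow_le_rpow (setLIntegral_le_lintegral _ _) (by positivity)

theorem sq_far {z : ℂ} (hz : 2 ≤ ‖z‖) : sq z = 0 := by
  refine sq_of_notMem fun h => ?_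
  obtain ⟨⟨h1, h2⟩, h3, h4⟩ := h
  have := Complex.norm_le_abs_re_add_abs_im z
  rw [abs_of_nonneg h1, abs_of_nonneg h3] at this
  linarith

/-- High order differences of the square are approximable for smaller exponents. -/
theorem D_iter_eq_zero {p q : ℝ} (hq : 0 < q) (hqp : q ≤ p) (hp1 : p < 1)
    (h : ClosureIsAll p) (v : ℂ) {m : ℕ} (hm : 2 < ((m + 2 : ℕ) : ℝ) * q) :
    D q ((dv v)^[m] sq) = 0 := by
  have hp : 0 < p := hq.trans_le hqp
  have hq1 : q < 1 := hqp.trans_lt hp1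
  rw [closureIsAll_iff_sq hp hp1.le] at h
  obtain ⟨R, hR, hG⟩ := iter_G_le v m
  set ρ : ℝ := max R (3 + m * ‖v‖) with hρ
  have hρ0 : 0 < ρ := lt_max_of_lt_left hR
  set B : Set ℂ := Metric.ball 0 ρ with hB
  have hBm : MeasurableSet B := Metric.isOpen_ball.measurableSet
  set W : ℝ≥0∞ := volume B ^ (1 / q - 1 / p) with hW
  have hWt : W ≠ ∞ := by
    refine ENNReal.rpow_ne_top_of_nonneg ?_ measure_ball_lt_top.ne
    rw [sub_nonneg]
    exact one_div_le_one_div_of_le hq hqp
  refine le_antisymm (ENNReal.le_of_forall_pos_le_add fun ε hε _ => ?_) zero_le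
  have hε2 : (0 : ℝ≥0∞) < (ε : ℝ≥0∞) / 2 := ENNReal.div_pos (by exact_mod_cast hε.ne') (by simp)
  -- choice of `η`
  have hcont : Tendsto (fun η : ℝ≥0∞ => ((2 ^ m * η) ^ (1 / p) * W) ^ q) (𝓝 0) (𝓝 0) := by
    have h1 : Tendsto (fun η : ℝ≥0∞ => 2 ^ m * η) (𝓝 0) (𝓝 (2 ^ m * 0)) :=
      ENNReal.Tendsto.const_mul tendsto_id (Or.inr (by simp))
    have h2 := (ENNReal.continuous_rpow_const (y := 1 / p)).tendsto (2 ^ m * 0)
    have h3 := ENNReal.Tendsto.mul_const (b := W) (h2.comp h1) (Or.inr hWt)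
    have h4 := ((ENNReal.continuous_rpow_const (y := q)).tendsto _).comp h3
    have h5 : (0:ℝ) < 1 / p := by positivity
    simp only [Function.comp_def, mul_zero, ENNReal.zero_rpow_of_pos h5, zero_mul,
      ENNReal.zero_rpow_of_pos hq] at h4
    exact h4
  have hev := ((hcont.eventually (gt_mem_nhds hε2)).filter_mono
    (nhdsWithin_le_nhds (s := Set.Ioi 0))).and self_mem_nhdsWithin
  obtain ⟨η, hη1, hη0⟩ := hev.exists
  obtain ⟨g, hg, hgp, hgl⟩ := exists_of_D_lt (p := p) (f := sq) (x := η) (by rw [h]; exact hη0)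
  obtain ⟨C, n₀, hC, hn₀, hdec⟩ := hG hg
  obtain ⟨C', R', hC', hR', hfar⟩ := far_of_memLp hp hp1.le hg hgp
  set F : ℕ → ℂ → ℂ := fun n => (dv v)^[m] (fun z => sq z - G g n z) with hF
  have hFe : ∀ n z, F n z = (dv v)^[m] sq z - (dv v)^[m] (G g n) z := by
    intro n z; rw [hF]; simp only; rw [dv_iter_sub]
  have hGm : ∀ n, n₀ ≤ n → Measurable (G g n) := fun n hn =>
    measurable_of_mem (G_mem hg (hn₀.trans_le hn))
  have hFm : ∀ n, n₀ ≤ n → Measurable (F n) := fun n hn =>
    measurable_iter m (measurable_sq.sub (hGm n hn))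
  have hFar : ∀ n, ∀ z ∈ Bᶜ, F n z = - (dv v)^[m] (G g n) z := by
    intro n z hz
    rw [hB, Set.mem_compl_iff, mem_ball_zero_iff, not_lt] at hz
    rw [hFe, iter_eq_zero (ρ := 2) m (fun w hw => sq_far hw) z, zero_sub]
    have := (le_max_right R (3 + m * ‖v‖)).trans hz
    linarith
  -- inside
  have hin : ∀ n, n₀ ≤ n → ∫⁻ z in B, ‖F n z‖ₑ ^ q ≤ (ε : ℝ≥0∞) / 2 := by
    intro n hn
    refine (holder_ball hq hqp (hFm n hn) B).trans (le_trans ?_ hη1.le)
    refine ENNReal.rpow_le_rpow ?_ hq.le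
    gcongr
    refine (N_iter_le hp hp1.le m (measurable_sq.sub (hGm n hn))).trans ?_
    gcongr
    exact (N_G_le hp hp1.le (hn₀.trans_le hn) (measurable_of_mem hg)).trans hgl.le
  -- outside
  have hbd : ∀ n, n₀ ≤ n → ∀ z ∈ Bᶜ, ‖(dv v)^[m] (G g n) z‖ₑ ^ q
      ≤ (ENNReal.ofReal (C / ‖z‖ ^ (m + 2))) ^ q := by
    intro n hn z hz
    rw [hB, Set.mem_compl_iff, mem_ball_zero_iff, not_lt] at hz
    refine ENNReal.rpow_le_rpow ?_ hq.le
    rw [← ofReal_norm]
    exact ENNReal.ofReal_le_ofReal (hdec n hn z ((le_max_left _ _).trans hz))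
  have hff : ∫⁻ z in Bᶜ, (ENNReal.ofReal (C / ‖z‖ ^ (m + 2))) ^ q < ∞ :=
    far_fin hC hρ0 hq hm
  have hout : Tendsto (fun n => ∫⁻ z in Bᶜ, ‖F n z‖ₑ ^ q) atTop (𝓝 0) := by
    have key := tendsto_lintegral_filter_of_dominated_convergence
      (μ := (volume : Measure ℂ).restrict Bᶜ) (l := atTop)
      (F := fun (n : ℕ) z => ‖F n z‖ₑ ^ q) (f := fun _ => 0)
      (fun z => (ENNReal.ofReal (C / ‖z‖ ^ (m + 2))) ^ q) ?_ ?_ hff.ne ?_
    · simpa using key
    · filter_upwards [eventually_ge_atTop n₀] with n hn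
      exact (hFm n hn).enorm.pow_const q
    · filter_upwards [eventually_ge_atTop n₀] with n hn
      refine (ae_restrict_iff' hBm.compl).2 (Eventually.of_forall fun z hz => ?_)
      rw [hFar n z hz, enorm_neg]
      exact hbd n hn z hz
    · refine (ae_restrict_iff' hBm.compl).2 (Eventually.of_forall fun z hz => ?_)
      have hz' := hz
      rw [hB, Set.mem_compl_iff, mem_ball_zero_iff, not_lt] at hz'
      have h1 := iter_tendsto (v := v) (ρ := 3) m (F := fun n => G g n)
        (fun w hw => G_tendsto hfar hC' w hw) z ((le_max_right _ _).trans hz')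
      have h2 := ((ENNReal.continuous_rpow_const (y := q)).tendsto _).comp h1.enorm
      simp only [Function.comp_def, enorm_zero, ENNReal.zero_rpow_of_pos hq] at h2
      refine h2.congr fun n => ?_
      rw [hFar n z hz, enorm_neg]
  obtain ⟨n, hn1, hn2⟩ := ((hout.eventually (gt_mem_nhds hε2)).and
    (eventually_ge_atTop n₀)).exists
  have hmem : (dv v)^[m] (G g n) ∈ XC := mem_iter m (G_mem hg (hn₀.trans_le hn2))
  have hLq : MemLp ((dv v)^[m] (G g n)) (ENNReal.ofReal q) volume := by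
    rw [memLp_iff hq]
    refine ⟨(measurable_of_mem hmem).aestronglyMeasurable, ?_⟩
    unfold N
    rw [← lintegral_add_compl _ hBm]
    refine ENNReal.add_lt_top.2 ⟨lint_ball_of_mem hq hq1 hmem ρ, ?_⟩
    exact lt_of_le_of_lt (setLIntegral_mono' hBm.compl (hbd n hn2)) hff
  have h7 := D_le (p := q) (f := (dv v)^[m] sq) hmem hLq
  have h8 : (fun z => (dv v)^[m] sq z - (dv v)^[m] (G g n) z) = F n := by
    funext z; exact (hFe n z).symm
  rw [h8] at h7
  rw [zero_add]
  refine h7.trans ?_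
  unfold N
  rw [← lintegral_add_compl _ hBm]
  calc _ ≤ (ε : ℝ≥0∞) / 2 + (ε : ℝ≥0∞) / 2 := add_le_add (hin n hn2) hn1.le
    _ = ε := ENNReal.add_halves _

/-! ### from high order differences to the function itself -/

theorem D_add_zero {q : ℝ} (hq : 0 < q) (hq1 : q ≤ 1) {f f' : ℂ → ℂ} (hf : Measurable f)
    (h : D q f = 0) (h' : D q f' = 0) : D q (fun z => f z + f' z) = 0 := by
  have := D_add_le hq hq1 (f' := f') hf.aestronglyMeasurable
  rw [h, h', add_zero] at this
  exact le_antisymm this zero_le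

theorem null_translates {q : ℝ} (hq : 0 < q) (hq1 : q ≤ 1) {c : ℂ → ℂ} (hc : Measurable c) (v : ℂ)
    (h : D q (dv v c) = 0) : ∀ j : ℕ, D q (fun z => c z - c (z - j * v)) = 0 := by
  intro j
  induction j with
  | zero => simp [D_zero hq]
  | succ j ih =>
    have h1 : D q (fun z => (fun w => c w - c (w - j * v)) (z - v)) = 0 :=
      le_antisymm ((D_translate_le q (fun w => c w - c (w - j * v)) v).trans ih.le) zero_le
    have h2 := D_add_zero hq hq1 (measurable_dv hc) h h1
    have h3 : (fun z => c z - c (z - ((j + 1 : ℕ) : ℂ) * v))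
        = fun z => dv v c z + (fun w => c w - c (w - j * v)) (z - v) := by
      funext z
      simp only [dv]
      have : z - ((j + 1 : ℕ) : ℂ) * v = z - v - j * v := by push_cast; ring
      rw [this]; ring
    rw [h3]; exact h2

theorem null_mul {q : ℝ} (hq : 0 < q) (hq1 : q ≤ 1) {h : ℂ → ℂ} (hm : Measurable h) (v : ℂ)
    (h2 : D q (dv v (dv v h)) = 0) :
    ∀ k : ℕ, D q (fun z => (k : ℂ) * dv v h z - (h z - h (z - k * v))) = 0 := by
  intro k
  induction k with
  | zero => simp [D_zero hq]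
  | succ k ih =>
    have h3 := null_translates hq hq1 (measurable_dv hm) v h2 k
    have hmk : Measurable fun z => (k : ℂ) * dv v h z - (h z - h (z - k * v)) :=
      ((measurable_dv hm).const_mul _).sub (hm.sub (hm.comp (measurable_id.sub_const _)))
    have h4 := D_add_zero hq hq1 hmk ih h3
    have h5 : (fun z => ((k + 1 : ℕ) : ℂ) * dv v h z - (h z - h (z - ((k + 1 : ℕ) : ℂ) * v)))
        = fun z => ((k : ℂ) * dv v h z - (h z - h (z - k * v)))
          + (dv v h z - dv v h (z - k * v)) := by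
      funext z
      simp only [dv]
      have : z - ((k + 1 : ℕ) : ℂ) * v = z - k * v - v := by push_cast; ring
      rw [this]; push_cast; ring
    rw [h5]; exact h4

theorem null_reduce {q : ℝ} (hq : 0 < q) (hq1 : q ≤ 1) {h : ℂ → ℂ} (hm : Measurable h) (v : ℂ)
    (hfin : D q h < ∞) (h2 : D q (dv v (dv v h)) = 0) : D q (dv v h) = 0 := by
  have hk : ∀ k : ℕ, 1 ≤ k → D q (dv v h) ≤ ‖((k : ℂ))⁻¹‖ₑ ^ q * (D q h + D q h) := by
    intro k hk
    have hk0 : (k : ℂ) ≠ 0 := by exact_mod_cast (by omega : k ≠ 0)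
    have h3 := null_mul hq hq1 hm v h2 k
    have hmk : Measurable fun z => (k : ℂ) * dv v h z - (h z - h (z - k * v)) :=
      ((measurable_dv hm).const_mul _).sub (hm.sub (hm.comp (measurable_id.sub_const _)))
    have h4 := D_add_le hq hq1 (f' := fun z => h z - h (z - k * v)) hmk.aestronglyMeasurable
    simp only [sub_add_cancel] at h4
    rw [h3, zero_add] at h4
    have h5 := D_sub_le hq hq1 (f := h) (f' := fun z => h (z - k * v)) hm.aestronglyMeasurable
    have h6 := h4.trans (h5.trans (add_le_add le_rfl (D_translate_le q h (k * v))))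
    have h7 := D_smul_le hq ((k : ℂ))⁻¹ (fun z => (k : ℂ) * dv v h z)
    simp only [← mul_assoc, inv_mul_cancel₀ hk0, one_mul] at h7
    refine h7.trans ?_
    gcongr
  have hlim : Tendsto (fun k : ℕ => ‖((k : ℂ))⁻¹‖ₑ ^ q * (D q h + D q h)) atTop (𝓝 0) := by
    have h1 : Tendsto (fun k : ℕ => ((k : ℂ))⁻¹) atTop (𝓝 0) :=
      tendsto_inv_atTop_nhds_zero_nat
    have h2 := ((ENNReal.continuous_rpow_const (y := q)).tendsto _).comp h1.enorm
    simp only [Function.comp_def, enorm_zero, ENNReal.zero_rpow_of_pos hq] at h2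
    have h3 := ENNReal.Tendsto.mul_const (b := D q h + D q h) h2
      (Or.inr (ENNReal.add_lt_top.2 ⟨hfin, hfin⟩).ne)
    rwa [zero_mul] at h3
  exact le_antisymm (ge_of_tendsto hlim (by
    filter_upwards [eventually_ge_atTop 1] with k hk' using hk k hk')) zero_le

theorem null_of_iter {q : ℝ} (hq : 0 < q) (hq1 : q ≤ 1) {f : ℂ → ℂ} (hm : Measurable f) (v : ℂ)
    (hfin : N q f < ∞) : ∀ m : ℕ, D q ((dv v)^[m + 1] f) = 0 → D q (dv v f) = 0 := by
  intro m
  induction m with
  | zero => intro h; exact h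
  | succ m ih =>
    intro h
    apply ih
    rw [Function.iterate_succ_apply']
    refine null_reduce hq hq1 (measurable_iter m hm) v ?_ ?_
    · refine ((D_le_N _ _).trans (N_iter_le hq hq1 m hm)).trans_lt ?_
      exact ENNReal.mul_lt_top (by simp) hfin
    · rw [Function.iterate_succ_apply', Function.iterate_succ_apply'] at h
      exact h

/-- If all first differences of the unit square are approximable, then everything is. -/
theorem null_sq {q : ℝ} (hq : 0 < q) (hq1 : q < 1) (h : ∀ v, D q (dv v sq) = 0) :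
    D q sq = 0 := by
  have h2 : (0:ℝ) < 2 := two_pos
  set b : ℂ → ℂ := fun z => sq ((1/2 : ℝ) • z) with hb
  have hbm : Measurable b := measurable_sq.comp (measurable_const_smul _)
  have hbe : ∀ z, b z = ∑ k ∈ Kn 2, sq (z - lat k) := by
    intro z
    rw [hb]
    simp only
    rw [sq_eq (n := 2) (by norm_num)]
    refine Finset.sum_congr rfl fun k _ => ?_
    congr 2
    rw [smul_smul]; norm_num
  have h3 : D q sq ≤ ENNReal.ofReal (2 ^ 2)⁻¹ * D q b := by
    have h := D_dilate_le hq b h2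
    have h4 : (fun z => b ((2:ℝ) • z)) = sq := by
      funext z
      simp only [hb]
      rw [smul_smul]; norm_num
    rw [h4] at h
    exact h
  have h4 : D q (fun z => ∑ k ∈ Kn 2, dv (lat k) sq z) = 0 := by
    refine le_antisymm ((D_sum_le hq hq1.le (Kn 2) (fun k => dv (lat k) sq) fun k _ =>
      (measurable_dv measurable_sq).aestronglyMeasurable).trans ?_) zero_le
    rw [Finset.sum_eq_zero fun k _ => h (lat k)]
  have h5 : D q b ≤ D q (fun z => (4:ℂ) * sq z) := by
    have h6 := D_sub_le hq hq1.le (f := fun z => (4:ℂ) * sq z)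
      (f' := fun z => ∑ k ∈ Kn 2, dv (lat k) sq z)
      (measurable_sq.const_mul _).aestronglyMeasurable
    rw [h4, add_zero] at h6
    have h7 : (fun z => (4:ℂ) * sq z - ∑ k ∈ Kn 2, dv (lat k) sq z) = b := by
      funext z
      rw [hbe]
      simp only [dv, Finset.sum_sub_distrib, Finset.sum_const, card_Kn, nsmul_eq_mul]
      push_cast
      ring
    rw [h7] at h6
    exact h6
  have h6 := h3.trans (mul_le_mul_right (h5.trans (D_smul_le hq 4 sq)) _)
  have h7 : ENNReal.ofReal (2 ^ 2)⁻¹ * ‖(4:ℂ)‖ₑ ^ q < 1 := by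
    have h8 : ‖(4:ℂ)‖ₑ = ENNReal.ofReal 4 := by
      rw [← ofReal_norm]; norm_num
    rw [h8, ENNReal.ofReal_rpow_of_pos (by norm_num), ← ENNReal.ofReal_mul (by norm_num),
      ENNReal.ofReal_lt_one]
    have h9 : (4:ℝ) ^ q < 4 ^ (1:ℝ) := Real.rpow_lt_rpow_of_exponent_lt (by norm_num) hq1
    rw [Real.rpow_one] at h9
    norm_num
    linarith
  have hκ : D q sq ≤ 1 := (D_le_N q sq).trans (N_sq hq).le
  by_contra hne
  rw [← mul_assoc] at h6
  have h10 : ENNReal.ofReal (2 ^ 2)⁻¹ * ‖(4:ℂ)‖ₑ ^ q * D q sq < 1 * D q sq :=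
    (ENNReal.mul_lt_mul_iff_left hne (ne_top_of_le_ne_top (by simp) hκ)).2 h7
  rw [one_mul] at h10
  exact absurd (h6.trans_lt h10) (lt_irrefl _)

/-- Downward closure. -/
theorem down {p q : ℝ} (hq : 0 < q) (hqp : q ≤ p) (hp1 : p < 1) (h : ClosureIsAll p) :
    ClosureIsAll q := by
  have hq1 : q < 1 := hqp.trans_lt hp1
  rw [closureIsAll_iff_sq hq hq1.le]
  refine null_sq hq hq1 fun v => ?_
  obtain ⟨m, hm⟩ := exists_nat_gt (2 / q)
  refine null_of_iter hq hq1.le measurable_sq v (by rw [N_sq hq]; simp) m ?_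
  refine D_iter_eq_zero hq hqp hp1 h v ?_
  rw [div_lt_iff₀ hq] at hm
  push_cast
  nlinarith

end Run7.h462
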