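import Pool.Agent.Run7.h462.Defs

open MeasureTheory ENNReal Filter Topology

namespace Run7.h462

/-- `∫ |f|^p` -/
noncomputable def N (p : ℝ) (f : ℂ → ℂ) : ℝ≥0∞ := ∫⁻ z, ‖f z‖ₑ ^ p

theorem memLp_iff {p : ℝ} (hp : 0 < p) {f : ℂ → ℂ} :
    MemLp f (ENNReal.ofReal p) volume ↔ AEStronglyMeasurable f volume ∧ N p f < ∞ := by
  unfold MemLp N
  rw [eLpNorm_lt_top_iff_lintegral_rpow_enorm_lt_top (by simpa using hp) (by simp),
    ENNReal.toReal_ofReal hp.le]

theorem N_eq {p : ℝ} (hp : 0 < p) (f : ℂ → ℂ) :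
    N p f = eLpNorm f (ENNReal.ofReal p) volume ^ p := by
  unfold N
  rw [eLpNorm_eq_lintegral_rpow_enorm_toReal (by simpa using hp) (by simp),
    ENNReal.toReal_ofReal hp.le, ← ENNReal.rpow_mul]
  simp [hp.ne']

theorem N_add_le {p : ℝ} (hp : 0 < p) (hp1 : p ≤ 1) {f g : ℂ → ℂ}
    (hf : AEStronglyMeasurable f volume) :
    N p (fun z => f z + g z) ≤ N p f + N p g := by
  unfold N
  rw [← lintegral_add_left' (by fun_prop)]
  apply lintegral_mono
  intro z
  calc ‖f z + g z‖ₑ ^ p ≤ (‖f z‖ₑ + ‖g z‖ₑ) ^ p :=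
        ENNReal.rpow_le_rpow (enorm_add_le _ _) hp.le
    _ ≤ _ := ENNReal.rpow_add_le_add_rpow _ _ hp.le hp1

theorem N_smul {p : ℝ} (hp : 0 < p) (c : ℂ) (f : ℂ → ℂ) :
    N p (fun z => c * f z) = ‖c‖ₑ ^ p * N p f := by
  unfold N
  rw [← lintegral_const_mul' _ _ (by
    apply ENNReal.rpow_ne_top_of_nonneg hp.le; simp)]
  apply lintegral_congr
  intro z
  rw [enorm_mul, ENNReal.mul_rpow_of_nonneg _ _ hp.le]

theorem N_neg (p : ℝ) (f : ℂ → ℂ) : N p (fun z => - f z) = N p f := by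
  unfold N; simp

theorem N_translate (p : ℝ) (f : ℂ → ℂ) (v : ℂ) : N p (fun z => f (z - v)) = N p f := by
  unfold N
  exact lintegral_sub_right_eq_self (fun z => ‖f z‖ₑ ^ p) v

theorem lintegral_dilate (F : ℂ → ℝ≥0∞) {r : ℝ} (hr : 0 < r) :
    ∫⁻ z, F (r • z) = ENNReal.ofReal (r ^ 2)⁻¹ * ∫⁻ z, F z := by
  have h := Measure.map_addHaar_smul (volume : Measure ℂ) hr.ne'
  have he : MeasurableEmbedding (fun z : ℂ => r • z) :=
    (Homeomorph.smulOfNeZero r hr.ne').measurableEmbedding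
  rw [← he.lintegral_map (μ := volume) F, h, lintegral_smul_measure]
  congr 2
  simp [Complex.finrank_real_complex]

theorem N_dilate (p : ℝ) (f : ℂ → ℂ) {r : ℝ} (hr : 0 < r) :
    N p (fun z => f (r • z)) = ENNReal.ofReal (r ^ 2)⁻¹ * N p f := by
  unfold N
  exact lintegral_dilate (fun z => ‖f z‖ₑ ^ p) hr

/-! ### the kernels -/

theorem norm_kern (a z : ℂ) : ‖kern a z‖ = (‖z - a‖ ^ 2)⁻¹ := by
  unfold kern
  by_cases h : z - a = 0
  · simp [h]
  · have : ‖z - a‖ ≠ 0 := by simpa using h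
    rw [norm_div, Complex.norm_real, norm_pow, norm_norm]
    field_simp

theorem measurable_kern (a : ℂ) : Measurable (kern a) := by
  unfold kern
  fun_prop

theorem kern_mem (a : ℂ) : kern a ∈ XC := Submodule.subset_span ⟨a, rfl⟩

theorem measurable_of_mem {g : ℂ → ℂ} (hg : g ∈ XC) : Measurable g := by
  unfold XC at hg
  induction hg using Submodule.span_induction with
  | mem x h => obtain ⟨a, rfl⟩ := h; exact measurable_kern a
  | zero => exact measurable_zero
  | add x y _ _ hx hy => exact hx.add hy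
  | smul a x _ hx => exact hx.const_smul a

theorem kern_translate (a v z : ℂ) : kern a (z - v) = kern (a + v) z := by
  unfold kern; congr 1 <;> ring_nf

theorem kern_dilate (a : ℂ) {r : ℝ} (hr : 0 < r) (z : ℂ) :
    kern a (r • z) = ((r ^ 2)⁻¹ : ℝ) • kern (r⁻¹ • a) z := by
  unfold kern
  have h1 : r • z - a = r • (z - r⁻¹ • a) := by
    rw [smul_sub, smul_smul, mul_inv_cancel₀ hr.ne', one_smul]
  rw [h1, norm_smul, Real.norm_of_nonneg hr.le]
  have hrc : (r : ℂ) ≠ 0 := by exact_mod_cast hr.ne'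
  simp only [Complex.real_smul]
  push_cast
  by_cases h : z - r⁻¹ • a = 0
  · simp only [Complex.real_smul, Complex.ofReal_inv] at h
    simp [h]
  · have : ((‖z - (r:ℂ)⁻¹ * a‖ : ℝ) : ℂ) ≠ 0 := by
      simp only [Complex.real_smul, Complex.ofReal_inv] at h
      simpa using h
    field_simp

theorem mem_translate {g : ℂ → ℂ} (hg : g ∈ XC) (v : ℂ) : (fun z => g (z - v)) ∈ XC := by
  unfold XC at hg
  induction hg using Submodule.span_induction with
  | mem x h =>
    obtain ⟨a, rfl⟩ := h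
    have : (fun z => kern a (z - v)) = kern (a + v) := by
      funext z; exact kern_translate a v z
    rw [this]; exact kern_mem _
  | zero => exact Submodule.zero_mem _
  | add x y _ _ hx hy => exact Submodule.add_mem _ hx hy
  | smul a x _ hx => exact Submodule.smul_mem _ a hx

theorem mem_dilate {g : ℂ → ℂ} (hg : g ∈ XC) {r : ℝ} (hr : 0 < r) :
    (fun z => g (r • z)) ∈ XC := by
  unfold XC at hg
  induction hg using Submodule.span_induction with
  | mem x h =>
    obtain ⟨a, rfl⟩ := h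
    have : (fun z => kern a (r • z)) = (((r ^ 2)⁻¹ : ℝ) : ℂ) • kern (r⁻¹ • a) := by
      funext z
      rw [kern_dilate a hr z]
      simp only [Pi.smul_apply, Complex.real_smul, smul_eq_mul]
    rw [this]; exact Submodule.smul_mem _ _ (kern_mem _)
  | zero => exact Submodule.zero_mem _
  | add x y _ _ hx hy => exact Submodule.add_mem _ hx hy
  | smul a x _ hx => exact Submodule.smul_mem _ a hx

theorem exists_rep {g : ℂ → ℂ} (hg : g ∈ XC) :
    ∃ (S : Finset ℂ) (c : ℂ → ℂ), ∀ z, g z = ∑ a ∈ S, c a * kern a z := by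
  unfold XC at hg
  rw [Finsupp.mem_span_range_iff_exists_finsupp] at hg
  obtain ⟨c, rfl⟩ := hg
  refine ⟨c.support, c, fun z => ?_⟩
  simp [Finsupp.sum, Finset.sum_apply]

end Run7.h462
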