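import Mathlib

/-!
Definitions for `MP_440970_an`: the kernels `(z-a)/|z-a|^3`, their complex span, and the
statement that the closure of `span ∩ L^p(ℂ)` is `L^p(ℂ)`.
-/

open MeasureTheory ENNReal

namespace Run7.h462

/-- The kernel `z ↦ (z - a) / |z - a|^3`. -/
noncomputable def kern (a z : ℂ) : ℂ := (z - a) / ((‖z - a‖ ^ 3 : ℝ) : ℂ)

/-- The complex linear span of the kernels `kern a`, `a ∈ ℂ`. -/
noncomputable def XC : Submodule ℂ (ℂ → ℂ) := Submodule.span ℂ (Set.range kern)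

/-- The closure of `XC ∩ L^p(ℂ)` in `L^p(ℂ)` (with the metric `∫ |f - g|^p`) is all of
`L^p(ℂ)`. -/
def ClosureIsAll (p : ℝ) : Prop :=
  ∀ f : ℂ → ℂ, MemLp f (ENNReal.ofReal p) volume → ∀ ε : ℝ≥0∞, 0 < ε →
    ∃ g : ℂ → ℂ, g ∈ XC ∧ MemLp g (ENNReal.ofReal p) volume ∧
      ∫⁻ z, ‖f z - g z‖ₑ ^ p < ε

end Run7.h462
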