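import Pool.Agent.Run7.h462.Steps

open MeasureTheory ENNReal Filter Topology

namespace Run7.h462

/-- The sampling point. -/
noncomputable def samp (r : ℝ) (z : ℂ) : ℂ := r⁻¹ • lat (cell (r • z))

theorem norm_sub_lat_le (z : ℂ) : ‖z - lat (cell z)‖ ≤ 2 := by
  refine (Complex.norm_le_abs_re_add_abs_im _).trans ?_
  have h1 : |(z - lat (cell z)).re| ≤ 1 := by
    unfold lat cell
    simp only [Complex.sub_re]
    rw [abs_le]
    have h1 := Int.floor_le z.re
    have h2 := Int.lt_floor_add_one z.re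
    constructor <;> linarith
  have h2 : |(z - lat (cell z)).im| ≤ 1 := by
    unfold lat cell
    simp only [Complex.sub_im]
    rw [abs_le]
    have h1 := Int.floor_le z.im
    have h2 := Int.lt_floor_add_one z.im
    constructor <;> linarith
  linarith

theorem dist_samp {r : ℝ} (hr : 0 < r) (z : ℂ) : ‖samp r z - z‖ ≤ 2 / r := by
  unfold samp
  have h : r⁻¹ • lat (cell (r • z)) - z = - (r⁻¹ • (r • z - lat (cell (r • z)))) := by
    rw [smul_sub, smul_smul, inv_mul_cancel₀ hr.ne', one_smul]; ring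
  rw [h, norm_neg, norm_smul, norm_inv, Real.norm_of_nonneg hr.le]
  have := norm_sub_lat_le (r • z)
  rw [div_eq_inv_mul]
  gcongr

theorem exists_step_eq {g : ℂ → ℂ} (hg : HasCompactSupport g) {r : ℝ} (hr : 0 < r) :
    ∃ K : Finset (ℤ × ℤ), ∀ z, step r K (fun k => g (r⁻¹ • lat k)) z = g (samp r z) := by
  obtain ⟨R, hR⟩ := hg.isBounded.subset_closedBall (0 : ℂ)
  refine ⟨Finset.Icc (-⌈r * R⌉) ⌈r * R⌉ ×ˢ Finset.Icc (-⌈r * R⌉) ⌈r * R⌉, fun z => ?_⟩
  rw [step_eq]
  split_ifs with h
  · rfl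
  · unfold samp
    by_contra hne
    have hne' : g (r⁻¹ • lat (cell (r • z))) ≠ 0 := fun h' => hne h'.symm
    have hs := hR (subset_tsupport g hne')
    rw [mem_closedBall_zero_iff, norm_smul, norm_inv, Real.norm_of_nonneg hr.le] at hs
    have hs2 : ‖lat (cell (r • z))‖ ≤ r * R := by
      rw [inv_mul_le_iff₀ hr] at hs; exact hs
    set k := cell (r • z) with hk
    have h1 : |(k.1 : ℝ)| ≤ r * R := by
      have := Complex.abs_re_le_norm (lat k); unfold lat at this hs2; simp only at this; linarith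
    have h2 : |(k.2 : ℝ)| ≤ r * R := by
      have := Complex.abs_im_le_norm (lat k); unfold lat at this hs2; simp only at this; linarith
    have h3 : (r * R) ≤ (⌈r * R⌉ : ℝ) := Int.le_ceil _
    rw [abs_le] at h1 h2
    apply h
    rw [Finset.mem_product, Finset.mem_Icc, Finset.mem_Icc]
    refine ⟨⟨?_, ?_⟩, ?_, ?_⟩
    · have : (-⌈r * R⌉ : ℝ) ≤ k.1 := by linarith [h1.1]
      exact_mod_cast this
    · have : (k.1 : ℝ) ≤ ⌈r * R⌉ := by linarith [h1.2]
      exact_mod_cast this
    · have : (-⌈r * R⌉ : ℝ) ≤ k.2 := by linarith [h2.1]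
      exact_mod_cast this
    · have : (k.2 : ℝ) ≤ ⌈r * R⌉ := by linarith [h2.2]
      exact_mod_cast this

theorem measurable_samp {g : ℂ → ℂ} (hg : HasCompactSupport g) {r : ℝ} (hr : 0 < r) :
    Measurable fun z => g (samp r z) := by
  obtain ⟨K, hK⟩ := exists_step_eq hg hr
  have : (fun z => g (samp r z)) = step r K (fun k => g (r⁻¹ • lat k)) := by
    funext z; exact (hK z).symm
  rw [this]; exact measurable_step _ _ _

theorem tendsto_samp {p : ℝ} (hp : 0 < p) {g : ℂ → ℂ} (hg : HasCompactSupport g)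
    (hc : Continuous g) :
    Tendsto (fun n : ℕ => N p fun z => g z - g (samp ((n : ℝ) + 1) z)) atTop (𝓝 0) := by
  obtain ⟨R, hR⟩ := hg.isBounded.subset_closedBall (0 : ℂ)
  obtain ⟨C, hC⟩ := hg.exists_bound_of_continuous hc
  have hz : ∀ z, ‖z‖ > R → g z = 0 := by
    intro z hz
    by_contra hne
    have := hR (subset_tsupport g hne)
    rw [mem_closedBall_zero_iff] at this
    linarith
  have key := tendsto_lintegral_of_dominated_convergence
    (μ := (volume : Measure ℂ))
    (F := fun (n : ℕ) z => ‖g z - g (samp ((n : ℝ) + 1) z)‖ₑ ^ p) (f := fun _ => 0)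
    ((Metric.closedBall (0:ℂ) (R + 2)).indicator fun _ => (ENNReal.ofReal (C + C)) ^ p)
    (fun n => (((hc.measurable.sub (measurable_samp hg (by positivity))).enorm).pow_const p))
    (fun n => Eventually.of_forall fun z => ?_) ?_ (Eventually.of_forall fun z => ?_)
  · simpa [N] using key
  · by_cases hzb : z ∈ Metric.closedBall (0:ℂ) (R + 2)
    · rw [Set.indicator_of_mem hzb]
      refine ENNReal.rpow_le_rpow ?_ hp.le
      rw [← ofReal_norm]
      refine ENNReal.ofReal_le_ofReal ?_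
      exact (norm_sub_le _ _).trans (add_le_add (hC _) (hC _))
    · rw [Set.indicator_of_notMem hzb]
      have hz1 : R + 2 < ‖z‖ := by simpa [mem_closedBall_zero_iff] using hzb
      have h1 : g z = 0 := hz z (by linarith)
      have h2 : g (samp ((n : ℝ) + 1) z) = 0 := by
        apply hz
        have hd := dist_samp (r := (n:ℝ) + 1) (by positivity) z
        have hd2 : (2:ℝ) / ((n:ℝ) + 1) ≤ 2 := by
          rw [div_le_iff₀ (by positivity)]
          have : (0:ℝ) ≤ n := by positivity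
          linarith
        have hd3 := norm_sub_norm_le z (samp ((n:ℝ)+1) z)
        rw [norm_sub_rev] at hd3
        linarith
      show ‖g z - g (samp ((n:ℝ) + 1) z)‖ₑ ^ p ≤ 0
      rw [h1, h2]; simp [hp]
  · rw [lintegral_indicator measurableSet_closedBall]
    simp only [lintegral_const, MeasurableSet.univ, Measure.restrict_apply, Set.univ_inter]
    exact ENNReal.mul_ne_top (ENNReal.rpow_ne_top_of_nonneg hp.le ENNReal.ofReal_ne_top)
      measure_closedBall_lt_top.ne
  · have h1 : Tendsto (fun n : ℕ => samp ((n : ℝ) + 1) z) atTop (𝓝 z) := by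
      rw [tendsto_iff_norm_sub_tendsto_zero]
      refine squeeze_zero (fun _ => norm_nonneg _)
        (fun n => dist_samp (r := (n:ℝ) + 1) (by positivity) z) ?_
      have := tendsto_one_div_add_atTop_nhds_zero_nat (𝕜 := ℝ)
      have := this.const_mul 2
      simpa [div_eq_mul_inv] using this
    have h2 : Tendsto (fun n : ℕ => g z - g (samp ((n : ℝ) + 1) z)) atTop (𝓝 0) := by
      have := (hc.tendsto z).comp h1
      have := this.const_sub (g z)
      simpa using this
    have h3 := h2.enorm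
    have h4 := (ENNReal.continuous_rpow_const (y := p)).tendsto ‖(0:ℂ)‖ₑ
    have h5 := h4.comp h3
    simpa [Function.comp_def, hp] using h5

/-- Step functions are dense. -/
theorem exists_step {p : ℝ} (hp : 0 < p) (hp1 : p ≤ 1) {f : ℂ → ℂ}
    (hf : MemLp f (ENNReal.ofReal p) volume) {ε : ℝ≥0∞} (hε : 0 < ε) :
    ∃ (r : ℝ) (K : Finset (ℤ × ℤ)) (c : ℤ × ℤ → ℂ), 0 < r ∧
      N p (fun z => f z - step r K c z) < ε := by
  have hε2 : 0 < ε / 2 := ENNReal.div_pos hε.ne' (by simp)
  have hε3 : (ε / 2) ^ p⁻¹ ≠ 0 := by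
    rw [Ne, ENNReal.rpow_eq_zero_iff]
    push Not
    refine ⟨fun h => absurd h hε2.ne', fun _ => by positivity⟩
  obtain ⟨g, hgs, hgl, hgc, hgm⟩ := hf.exists_hasCompactSupport_eLpNorm_sub_le
    ENNReal.ofReal_ne_top hε3
  have h1 : N p (fun z => f z - g z) ≤ ε / 2 := by
    rw [N_eq hp]
    have : (fun z => f z - g z) = f - g := rfl
    rw [this]
    calc eLpNorm (f - g) (ENNReal.ofReal p) volume ^ p ≤ ((ε / 2) ^ p⁻¹) ^ p :=
          ENNReal.rpow_le_rpow hgl hp.le
      _ = ε / 2 := by rw [← ENNReal.rpow_mul, inv_mul_cancel₀ hp.ne', ENNReal.rpow_one]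
  have h2 := (tendsto_samp hp hgs hgc).eventually (gt_mem_nhds hε2)
  obtain ⟨n, hn⟩ := h2.exists
  obtain ⟨K, hK⟩ := exists_step_eq hgs (r := (n:ℝ) + 1) (by positivity)
  refine ⟨(n:ℝ) + 1, K, fun k => g (((n:ℝ) + 1)⁻¹ • lat k), by positivity, ?_⟩
  have h3 : (fun z => f z - step ((n:ℝ) + 1) K (fun k => g (((n:ℝ) + 1)⁻¹ • lat k)) z)
      = fun z => (f z - g z) + (g z - g (samp ((n:ℝ) + 1) z)) := by
    funext z; rw [hK z]; ring
  rw [h3]
  by_cases hεt : ε = ∞
  · rw [hεt]
    refine (N_add_le hp hp1 (hf.1.sub hgc.aestronglyMeasurable)).trans_lt ?_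
    rw [ENNReal.add_lt_top]
    refine ⟨?_, hn.trans_le le_top⟩
    exact ((memLp_iff hp).1 (hf.sub hgm)).2
  calc _ ≤ _ := N_add_le hp hp1 (hf.1.sub hgc.aestronglyMeasurable)
    _ < ε / 2 + ε / 2 := ENNReal.add_lt_add_of_le_of_lt (by
        exact (h1.trans_lt (ENNReal.half_lt_self hε.ne' hεt |>.trans_le le_top)).ne) h1 hn
    _ = ε := ENNReal.add_halves ε

/-- Everything is controlled by the unit square. -/
theorem D_le_mul {p : ℝ} (hp : 0 < p) (hp1 : p ≤ 1) {f : ℂ → ℂ}
    (hf : MemLp f (ENNReal.ofReal p) volume) : D p f ≤ D p sq * N p f := by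
  have hκ : D p sq ≤ 1 := (D_le_N p sq).trans (N_sq hp).le
  refine ENNReal.le_of_forall_pos_le_add fun ε hε _ => ?_
  have hε2 : (0 : ℝ≥0∞) < (ε : ℝ≥0∞) / 2 := ENNReal.div_pos (by exact_mod_cast hε.ne') (by simp)
  obtain ⟨r, K, c, hr, hlt⟩ := exists_step hp hp1 hf hε2
  have hms := (measurable_step r K c).aestronglyMeasurable (μ := (volume : Measure ℂ))
  have h1 : D p f ≤ N p (fun z => f z - step r K c z) + D p (step r K c) := by
    have h := D_add_le hp hp1 (f := fun z => f z - step r K c z) (f' := step r K c)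
      (hf.1.sub hms)
    simp only [sub_add_cancel] at h
    exact h.trans (add_le_add (D_le_N _ _) le_rfl)
  have h2 : N p (step r K c) ≤ N p f + N p (fun z => f z - step r K c z) := by
    have h := N_add_le hp hp1 (f := f) (g := fun z => - (f z - step r K c z)) hf.1
    rw [N_neg] at h
    have h3 : (fun z => f z + -(f z - step r K c z)) = step r K c := by funext z; ring
    rw [h3] at h; exact h
  calc D p f ≤ N p (fun z => f z - step r K c z) + D p sq * N p (step r K c) :=
        h1.trans (add_le_add le_rfl (D_step_le hp hp1 hr K c))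
    _ ≤ N p (fun z => f z - step r K c z)
        + D p sq * (N p f + N p (fun z => f z - step r K c z)) := by gcongr
    _ ≤ (ε : ℝ≥0∞) / 2 + (D p sq * N p f + 1 * ((ε : ℝ≥0∞) / 2)) := by
        rw [mul_add]; gcongr
    _ = D p sq * N p f + ((ε : ℝ≥0∞) / 2 + (ε : ℝ≥0∞) / 2) := by ring
    _ = _ := by rw [ENNReal.add_halves]

theorem memLp_sq {p : ℝ} (hp : 0 < p) : MemLp sq (ENNReal.ofReal p) volume := by
  rw [memLp_iff hp, N_sq hp]
  exact ⟨measurable_sq.aestronglyMeasurable, by simp⟩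

theorem closureIsAll_iff_sq {p : ℝ} (hp : 0 < p) (hp1 : p ≤ 1) :
    ClosureIsAll p ↔ D p sq = 0 := by
  rw [closureIsAll_iff]
  constructor
  · intro h; exact h sq (memLp_sq hp)
  · intro h f hf
    have := D_le_mul hp hp1 hf
    rw [h, zero_mul] at this
    exact le_antisymm this zero_le

/-- The bubble criterion. -/
theorem closureIsAll_of_lt {p : ℝ} (hp : 0 < p) (hp1 : p ≤ 1) {g : ℂ → ℂ} (hg : g ∈ XC)
    (hgp : MemLp g (ENNReal.ofReal p) volume) (h : N p (fun z => sq z - g z) < 1) :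
    ClosureIsAll p := by
  rw [closureIsAll_iff_sq hp hp1]
  have hκ : D p sq ≤ 1 := (D_le_N p sq).trans (N_sq hp).le
  have h1 : D p sq ≤ D p (fun z => sq z - g z) := by
    have h := D_add_le hp hp1 (f := fun z => sq z - g z) (f' := g)
      (measurable_sq.sub (measurable_of_mem hg)).aestronglyMeasurable
    simp only [sub_add_cancel] at h
    rw [D_mem hp hg hgp, add_zero] at h
    exact h
  have h2 := h1.trans (D_le_mul hp hp1 ((memLp_sq hp).sub hgp))
  by_contra hne
  have h3 : D p sq * N p (fun z => sq z - g z) < D p sq * 1 :=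
    (ENNReal.mul_lt_mul_iff_right hne (ne_top_of_le_ne_top (by simp) hκ)).2 h
  rw [mul_one] at h3
  exact absurd (h2.trans_lt h3) (lt_irrefl _)

end Run7.h462
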