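import Pool.Agent.Run7.h462.Basic

open MeasureTheory ENNReal Filter Topology ComplexConjugate

namespace Run7.h462

/-- The difference operator in direction `v`. -/
def dv (v : ℂ) (h : ℂ → ℂ) : ℂ → ℂ := fun z => h z - h (z - v)

/-- Constants in the difference lemma. -/
def CN : ℕ → ℝ
  | 0 => 1
  | n + 1 => 8 * 2 ^ n * CN n

theorem CN_pos (n : ℕ) : 0 < CN n := by
  induction n with
  | zero => simp [CN]
  | succ n ih => simp only [CN]; positivity

theorem norm_sub_add_one_le {Ψ : ℂ → ℂ} {r M : ℝ} (hr : 4 ≤ r)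
    (hd : DifferentiableOn ℂ Ψ (Metric.ball 0 r)) (hM : ∀ t ∈ Metric.ball (0:ℂ) r, ‖Ψ t‖ ≤ M)
    {t : ℂ} (ht : t ∈ Metric.ball (0:ℂ) (r / 2)) : ‖Ψ t - Ψ (t + 1)‖ ≤ 8 * M / r := by
  have hr0 : 0 < r := by linarith
  have hderiv : ∀ c ∈ Metric.ball (0:ℂ) (3 * r / 4), ‖deriv Ψ c‖ ≤ 8 * M / r := by
    intro c hc
    rw [mem_ball_zero_iff] at hc
    have hsub : Metric.closedBall c (r / 8) ⊆ Metric.ball (0:ℂ) r := by
      intro y hy
      rw [mem_ball_zero_iff]
      rw [Metric.mem_closedBall, dist_eq_norm] at hy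
      have := norm_add_le (y - c) c
      rw [sub_add_cancel] at this
      linarith
    have h := Complex.norm_deriv_le_of_forall_mem_sphere_norm_le (c := c) (R := r / 8) (C := M)
      (f := Ψ) (by linarith) ?_ fun z hz => hM z (hsub (Metric.sphere_subset_closedBall hz))
    · refine h.trans (le_of_eq ?_)
      field_simp
    · apply DifferentiableOn.diffContOnCl
      rw [closure_ball c (by linarith : r / 8 ≠ 0)]
      exact hd.mono hsub
  have hcx : Convex ℝ (Metric.ball (0:ℂ) (3 * r / 4)) := convex_ball _ _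
  rw [mem_ball_zero_iff] at ht
  have h1 : t ∈ Metric.ball (0:ℂ) (3 * r / 4) := by rw [mem_ball_zero_iff]; linarith
  have h2 : t + 1 ∈ Metric.ball (0:ℂ) (3 * r / 4) := by
    rw [mem_ball_zero_iff]
    have := norm_add_le t 1
    rw [norm_one] at this
    linarith
  have h3 := hcx.norm_image_sub_le_of_norm_deriv_le (f := Ψ) (C := 8 * M / r)
    (fun x hx => (hd x (Metric.ball_subset_ball (by linarith) hx)).differentiableAt
      (Metric.isOpen_ball.mem_nhds (Metric.ball_subset_ball (by linarith) hx))) hderiv h2 h1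
  simpa using h3

theorem diff_bound (v z : ℂ) : ∀ (n : ℕ) (h Ψ : ℂ → ℂ) (r M : ℝ), 4 * 2 ^ n ≤ r →
    DifferentiableOn ℂ Ψ (Metric.ball 0 r) → (∀ t ∈ Metric.ball (0:ℂ) r, ‖Ψ t‖ ≤ M) →
    (∀ t : ℝ, 0 ≤ t → t < r → h (z - t * v) = Ψ t) →
    ‖((dv v)^[n] h) z‖ ≤ CN n * M / r ^ n := by
  intro n
  induction n with
  | zero =>
    intro h Ψ r M hr hd hM he
    have h0 := he 0 le_rfl (by norm_num at hr; linarith)
    simp only [Complex.ofReal_zero, zero_mul, sub_zero] at h0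
    simp only [Function.iterate_zero, id_eq, CN, one_mul, pow_zero, div_one]
    rw [h0]
    exact hM 0 (by rw [mem_ball_zero_iff]; simp; norm_num at hr; linarith)
  | succ n ih =>
    intro h Ψ r M hr hd hM he
    rw [Function.iterate_succ_apply]
    have h2n : (1:ℝ) ≤ 2 ^ n := one_le_pow₀ (by norm_num)
    have hr4 : 8 ≤ r := by rw [pow_succ] at hr; linarith
    have hr0 : 0 < r := by linarith
    have key := ih (dv v h) (fun t => Ψ t - Ψ (t + 1)) (r / 2) (8 * M / r)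
      (by rw [pow_succ] at hr; linarith) ?_ ?_ ?_
    · refine key.trans (le_of_eq ?_)
      simp only [CN]
      rw [div_pow, pow_succ]
      field_simp
    · refine DifferentiableOn.sub (hd.mono (Metric.ball_subset_ball (by linarith))) ?_
      refine hd.comp (by fun_prop) ?_
      intro t ht
      rw [mem_ball_zero_iff] at ht ⊢
      have := norm_add_le t 1
      rw [norm_one] at this
      linarith
    · intro t ht
      exact norm_sub_add_one_le (by linarith) hd hM ht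
    · intro t ht htr
      unfold dv
      rw [he t ht (by linarith)]
      have h1 := he (t + 1) (by linarith) (by linarith)
      push_cast at h1
      rw [← h1]
      congr 2
      ring

/-- The kernel centered at the origin. -/
theorem kern_eq (b z : ℂ) : kern b z = kern 0 (z - b) := by simp [kern]

theorem kern_mul (x y : ℂ) : kern 0 (x * y) = kern 0 x * kern 0 y := by
  unfold kern
  simp only [sub_zero, norm_mul]
  push_cast
  rw [mul_pow, mul_div_mul_comm]

theorem kern_zero_eq {x : ℂ} (hx : 0 < x.re) :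
    kern 0 x = x * (x ^ ((-3/2 : ℝ) : ℂ)) * ((conj x) ^ ((-3/2 : ℝ) : ℂ)) := by
  have harg : x.arg ≠ Real.pi := by
    intro h
    rw [Complex.arg_eq_pi_iff] at h
    linarith [h.1]
  have hx0 : x ≠ 0 := by rintro rfl; simp at hx
  have hn : (0:ℝ) < ‖x‖ := norm_pos_iff.2 hx0
  rw [Complex.conj_cpow _ _ harg, Complex.conj_ofReal, mul_assoc, Complex.mul_conj,
    Complex.normSq_eq_norm_sq, Complex.norm_cpow_real]
  unfold kern
  rw [sub_zero, div_eq_mul_inv]
  congr 1
  rw [← Complex.ofReal_inv]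
  congr 1
  rw [← Real.rpow_natCast (‖x‖ ^ (-3/2 : ℝ)) 2, ← Real.rpow_mul hn.le, ← Real.rpow_natCast ‖x‖ 3,
    ← Real.rpow_neg hn.le]
  norm_num

/-- The holomorphic extension of `t ↦ kern 0 (1 - t α)`. -/
noncomputable def ext (α t : ℂ) : ℂ :=
  (1 - t * α) * ((1 - t * α) ^ ((-3/2 : ℝ) : ℂ)) * ((1 - t * conj α) ^ ((-3/2 : ℝ) : ℂ))

theorem ext_eq {α : ℂ} {t : ℝ} (h : ‖(t : ℂ) * α‖ < 1) : kern 0 (1 - t * α) = ext α t := by
  have hre : 0 < (1 - (t:ℂ) * α).re := by
    have := Complex.abs_re_le_norm ((t:ℂ) * α)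
    have := (abs_lt.1 (this.trans_lt h)).2
    simp only [Complex.sub_re, Complex.one_re]
    linarith
  rw [kern_zero_eq hre]
  unfold ext
  simp

theorem re_pos_of_norm_lt {u : ℂ} (h : ‖u‖ < 1) : 0 < (1 - u).re := by
  have := Complex.abs_re_le_norm u
  have := (abs_lt.1 (this.trans_lt h)).2
  simp only [Complex.sub_re, Complex.one_re]
  linarith

theorem norm_cpow_le {u : ℂ} (h : ‖u‖ ≤ 1 / 2) : ‖(1 - u) ^ ((-3/2 : ℝ) : ℂ)‖ ≤ 4 := by
  rw [Complex.norm_cpow_real]
  have h1 : 1 / 2 ≤ ‖1 - u‖ := by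
    have := norm_sub_norm_le (1:ℂ) u
    rw [norm_one] at this
    linarith
  calc ‖1 - u‖ ^ (-3/2 : ℝ) ≤ (1/2 : ℝ) ^ (-3/2 : ℝ) :=
        Real.rpow_le_rpow_of_nonpos (by norm_num) h1 (by norm_num)
    _ ≤ (1/2 : ℝ) ^ (-2 : ℝ) :=
        Real.rpow_le_rpow_of_exponent_ge (by norm_num) (by norm_num) (by norm_num)
    _ = 4 := by
        rw [Real.rpow_neg (by norm_num)]; norm_num

theorem norm_ext_le {α t : ℂ} (h : ‖t * α‖ ≤ 1 / 2) : ‖ext α t‖ ≤ 24 := by
  unfold ext
  have h2 : ‖t * conj α‖ ≤ 1 / 2 := by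
    rw [norm_mul, RCLike.norm_conj, ← norm_mul]; exact h
  rw [norm_mul, norm_mul]
  have h3 : ‖1 - t * α‖ ≤ 3 / 2 := by
    have := norm_sub_le (1:ℂ) (t * α)
    rw [norm_one] at this
    linarith
  calc ‖1 - t * α‖ * ‖(1 - t * α) ^ ((-3/2 : ℝ) : ℂ)‖ * ‖(1 - t * conj α) ^ ((-3/2 : ℝ) : ℂ)‖
      ≤ 3 / 2 * 4 * 4 := by
        gcongr
        · exact norm_cpow_le h
        · exact norm_cpow_le h2
    _ = 24 := by norm_num

theorem differentiableOn_ext (α : ℂ) {r : ℝ} (hr : r * ‖α‖ ≤ 1) :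
    DifferentiableOn ℂ (ext α) (Metric.ball 0 r) := by
  intro t ht
  rw [mem_ball_zero_iff] at ht
  by_cases hα : α = 0
  · subst hα
    unfold ext
    simp only [mul_zero, sub_zero, map_zero, Complex.one_cpow, mul_one]
    exact differentiableWithinAt_const _
  have hα' : 0 < ‖α‖ := norm_pos_iff.2 hα
  have h1 : ‖t * α‖ < 1 := by
    rw [norm_mul]
    exact (mul_lt_mul_of_pos_right ht hα').trans_le hr
  have h2 : ‖t * conj α‖ < 1 := by
    rw [norm_mul, RCLike.norm_conj, ← norm_mul]; exact h1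
  have h3 := re_pos_of_norm_lt h1
  have h4 := re_pos_of_norm_lt h2
  refine DifferentiableAt.differentiableWithinAt ?_
  unfold ext
  refine DifferentiableAt.mul (DifferentiableAt.mul (by fun_prop) ?_) ?_
  · exact DifferentiableAt.cpow_const (by fun_prop) (Or.inl h3)
  · exact DifferentiableAt.cpow_const (by fun_prop) (Or.inl h4)

theorem diff_kern (n : ℕ) (v : ℂ) (B : ℝ) : ∃ C R : ℝ, 0 < C ∧ 0 < R ∧ ∀ b z : ℂ, ‖b‖ ≤ B →
    R ≤ ‖z‖ → ‖((dv v)^[n] (kern b)) z‖ ≤ C / ‖z‖ ^ (n + 2) := by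
  set V : ℝ := ‖v‖ + 1 with hV
  have hV0 : 0 < V := by positivity
  refine ⟨CN n * 96 * (4 * V) ^ n, max (2 * |B|) (16 * 2 ^ n * V), by
    have := CN_pos n; positivity, lt_max_of_lt_right (by positivity), fun b z hb hz => ?_⟩
  have hz1 : 2 * |B| ≤ ‖z‖ := (le_max_left _ _).trans hz
  have hz2 : 16 * 2 ^ n * V ≤ ‖z‖ := (le_max_right _ _).trans hz
  have hz0 : 0 < ‖z‖ := lt_of_lt_of_le (by positivity) hz2
  set w := z - b with hw
  have hwz : ‖z‖ / 2 ≤ ‖w‖ := by
    have := norm_sub_norm_le z b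
    have := le_abs_self B
    linarith
  have hw0 : 0 < ‖w‖ := by linarith
  have hwne : w ≠ 0 := norm_pos_iff.1 hw0
  set r : ℝ := ‖w‖ / (2 * V) with hr
  have hr1 : 4 * 2 ^ n ≤ r := by
    rw [hr, le_div_iff₀ (by positivity)]
    linarith
  have hα : r * ‖v / w‖ ≤ 1 / 2 := by
    rw [hr, norm_div]
    have : ‖v‖ ≤ V := by linarith
    rw [div_mul_div_comm, div_le_div_iff₀ (by positivity) (by norm_num)]
    nlinarith
  have hb2 : ∀ t ∈ Metric.ball (0:ℂ) r, ‖t * (v / w)‖ ≤ 1 / 2 := by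
    intro t ht
    rw [mem_ball_zero_iff] at ht
    rw [norm_mul]
    refine le_trans ?_ hα
    gcongr
  have key := diff_bound v z n (kern b) (fun t => kern 0 w * ext (v / w) t) r
    (24 * (‖w‖ ^ 2)⁻¹) hr1 ?_ ?_ ?_
  · refine key.trans ?_
    have h1 : CN n * (24 * (‖w‖ ^ 2)⁻¹) / r ^ n = CN n * 24 * (2 * V) ^ n / ‖w‖ ^ (n + 2) := by
      rw [hr, div_pow, pow_add]; field_simp
    rw [h1]
    have h2 : CN n * 96 * (4 * V) ^ n / ‖z‖ ^ (n + 2)
        = CN n * 24 * (2 * V) ^ n / (‖z‖ / 2) ^ (n + 2) := by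
      have h4 : (4 * V) ^ n = 2 ^ n * (2 * V) ^ n := by rw [← mul_pow]; ring_nf
      rw [h4, div_pow, pow_add (2:ℝ)]
      field_simp
      ring
    rw [h2]
    have := CN_pos n
    gcongr
  · exact (differentiableOn_ext _ (by linarith)).const_mul _
  · intro t ht
    rw [norm_mul, norm_kern, sub_zero, mul_comm]
    have := norm_ext_le (hb2 t ht)
    gcongr
  · intro t ht htr
    have h1 := hb2 t (by rw [mem_ball_zero_iff]; simpa [abs_of_nonneg ht] using htr)
    rw [← ext_eq (lt_of_le_of_lt h1 (by norm_num)), ← kern_mul, kern_eq]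
    congr 1
    rw [hw] at hwne ⊢
    field_simp
    ring

end Run7.h462
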