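import Pool.Agent.Run7.h462.Basic

open MeasureTheory ENNReal Filter Topology

namespace Run7.h462

/-- The distance of `f` to `XC ∩ L^p(ℂ)`. -/
noncomputable def D (p : ℝ) (f : ℂ → ℂ) : ℝ≥0∞ :=
  ⨅ g ∈ {g : ℂ → ℂ | g ∈ XC ∧ MemLp g (ENNReal.ofReal p) volume}, N p (fun z => f z - g z)

theorem D_le {p : ℝ} {f g : ℂ → ℂ} (hg : g ∈ XC) (hgp : MemLp g (ENNReal.ofReal p) volume) :
    D p f ≤ N p (fun z => f z - g z) := by
  unfold D
  exact iInf₂_le g ⟨hg, hgp⟩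

theorem exists_of_D_lt {p : ℝ} {f : ℂ → ℂ} {x : ℝ≥0∞} (h : D p f < x) :
    ∃ g : ℂ → ℂ, g ∈ XC ∧ MemLp g (ENNReal.ofReal p) volume ∧ N p (fun z => f z - g z) < x := by
  unfold D at h
  simp only [iInf_lt_iff] at h
  obtain ⟨g, hg, hlt⟩ := h
  exact ⟨g, hg.1, hg.2, hlt⟩

theorem D_le_N (p : ℝ) (f : ℂ → ℂ) : D p f ≤ N p f := by
  have h := D_le (p := p) (f := f) (g := 0) XC.zero_mem MemLp.zero
  simpa using h

theorem N_zero {p : ℝ} (hp : 0 < p) : N p (fun _ => (0 : ℂ)) = 0 := by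
  unfold N; simp [hp]

theorem D_mem {p : ℝ} (hp : 0 < p) {g : ℂ → ℂ} (hg : g ∈ XC)
    (hgp : MemLp g (ENNReal.ofReal p) volume) : D p g = 0 := by
  have h := D_le (p := p) (f := g) hg hgp
  simp only [sub_self] at h
  rw [N_zero hp] at h
  exact le_antisymm h zero_le

theorem D_add_le {p : ℝ} (hp : 0 < p) (hp1 : p ≤ 1) {f f' : ℂ → ℂ}
    (hf : AEStronglyMeasurable f volume) :
    D p (fun z => f z + f' z) ≤ D p f + D p f' := by
  refine ENNReal.le_of_forall_pos_le_add fun ε hε hlt => ?_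
  have hε2 : (0 : ℝ≥0∞) < (ε : ℝ≥0∞) / 2 := ENNReal.div_pos (by exact_mod_cast hε.ne') (by simp)
  have h1 : D p f < D p f + (ε : ℝ≥0∞) / 2 :=
    ENNReal.lt_add_right (ne_top_of_le_ne_top hlt.ne (le_add_right le_rfl)) hε2.ne'
  have h2 : D p f' < D p f' + (ε : ℝ≥0∞) / 2 :=
    ENNReal.lt_add_right (ne_top_of_le_ne_top hlt.ne (le_add_left le_rfl)) hε2.ne'
  obtain ⟨g, hg, hgp, hgl⟩ := exists_of_D_lt h1
  obtain ⟨g', hg', hgp', hgl'⟩ := exists_of_D_lt h2
  have h3 := D_le (p := p) (f := fun z => f z + f' z) (g := fun z => g z + g' z)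
    (XC.add_mem hg hg') (hgp.add hgp')
  refine h3.trans ?_
  have h4 : (fun z => f z + f' z - (g z + g' z)) = fun z => (f z - g z) + (f' z - g' z) := by
    funext z; ring
  rw [h4]
  refine (N_add_le hp hp1 (hf.sub (measurable_of_mem hg).aestronglyMeasurable)).trans ?_
  calc N p (fun z => f z - g z) + N p (fun z => f' z - g' z)
      ≤ (D p f + (ε : ℝ≥0∞) / 2) + (D p f' + (ε : ℝ≥0∞) / 2) := add_le_add hgl.le hgl'.le
    _ = D p f + D p f' + ((ε : ℝ≥0∞) / 2 + (ε : ℝ≥0∞) / 2) := by ring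
    _ = D p f + D p f' + ε := by rw [ENNReal.add_halves]

theorem D_smul_le {p : ℝ} (hp : 0 < p) (c : ℂ) (f : ℂ → ℂ) :
    D p (fun z => c * f z) ≤ ‖c‖ₑ ^ p * D p f := by
  by_cases hc : c = 0
  · subst hc
    refine (D_le_N _ _).trans ?_
    simp [N_zero hp]
  have hne : ‖c‖ₑ ^ p ≠ 0 := by
    rw [Ne, ENNReal.rpow_eq_zero_iff]; simp [hc]
  have hnt : ‖c‖ₑ ^ p ≠ ∞ := ENNReal.rpow_ne_top_of_nonneg hp.le (by simp)
  by_contra hlt
  push Not at hlt
  have h1 : D p f < (‖c‖ₑ ^ p)⁻¹ * D p (fun z => c * f z) := by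
    rw [← ENNReal.div_eq_inv_mul, ENNReal.lt_div_iff_mul_lt (Or.inl hne) (Or.inl hnt), mul_comm]
    exact hlt
  obtain ⟨g, hg, hgp, hgl⟩ := exists_of_D_lt h1
  have h3 := D_le (p := p) (f := fun z => c * f z) (g := fun z => c * g z)
    (XC.smul_mem c hg) (hgp.const_mul c)
  have h4 : (fun z => c * f z - c * g z) = fun z => c * (f z - g z) := by funext z; ring
  rw [h4, N_smul hp] at h3
  rw [← ENNReal.div_eq_inv_mul, ENNReal.lt_div_iff_mul_lt (Or.inl hne) (Or.inl hnt),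
    mul_comm] at hgl
  exact absurd (h3.trans_lt hgl) (lt_irrefl _)

theorem D_neg_le {p : ℝ} (hp : 0 < p) (f : ℂ → ℂ) : D p (fun z => - f z) ≤ D p f := by
  have h := D_smul_le hp (-1) f
  simpa using h

theorem D_sub_le {p : ℝ} (hp : 0 < p) (hp1 : p ≤ 1) {f f' : ℂ → ℂ}
    (hf : AEStronglyMeasurable f volume) :
    D p (fun z => f z - f' z) ≤ D p f + D p f' := by
  have h := D_add_le hp hp1 (f' := fun z => - f' z) hf
  simp only [← sub_eq_add_neg] at h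
  exact h.trans (add_le_add le_rfl (D_neg_le hp f'))

theorem memLp_translate {q : ℝ≥0∞} {g : ℂ → ℂ} (h : MemLp g q volume) (v : ℂ) :
    MemLp (fun z => g (z - v)) q volume :=
  h.comp_measurePreserving (measurePreserving_sub_right volume v)

theorem D_translate_le (p : ℝ) (f : ℂ → ℂ) (v : ℂ) : D p (fun z => f (z - v)) ≤ D p f := by
  refine le_of_forall_gt fun x hx => ?_
  obtain ⟨g, hg, hgp, hgl⟩ := exists_of_D_lt hx
  have h3 := D_le (p := p) (f := fun z => f (z - v)) (mem_translate hg v) (memLp_translate hgp v)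
  refine h3.trans_lt ?_
  have := N_translate p (fun z => f z - g z) v
  rw [this]; exact hgl

theorem D_dilate_le {p : ℝ} (hp : 0 < p) (f : ℂ → ℂ) {r : ℝ} (hr : 0 < r) :
    D p (fun z => f (r • z)) ≤ ENNReal.ofReal (r ^ 2)⁻¹ * D p f := by
  have hne : ENNReal.ofReal (r ^ 2)⁻¹ ≠ 0 := by
    rw [Ne, ENNReal.ofReal_eq_zero, not_le]; positivity
  have hnt : ENNReal.ofReal (r ^ 2)⁻¹ ≠ ∞ := ENNReal.ofReal_ne_top
  by_contra hlt
  push Not at hlt
  have h1 : D p f < (ENNReal.ofReal (r ^ 2)⁻¹)⁻¹ * D p (fun z => f (r • z)) := by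
    rw [← ENNReal.div_eq_inv_mul, ENNReal.lt_div_iff_mul_lt (Or.inl hne) (Or.inl hnt), mul_comm]
    exact hlt
  obtain ⟨g, hg, hgp, hgl⟩ := exists_of_D_lt h1
  have hgd : MemLp (fun z => g (r • z)) (ENNReal.ofReal p) volume := by
    rw [memLp_iff hp]
    refine ⟨((measurable_of_mem hg).comp (measurable_const_smul r)).aestronglyMeasurable, ?_⟩
    rw [N_dilate p g hr]
    exact ENNReal.mul_lt_top ENNReal.ofReal_lt_top ((memLp_iff hp).1 hgp).2
  have h3 := D_le (p := p) (f := fun z => f (r • z)) (mem_dilate hg hr) hgd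
  have h4 := N_dilate p (fun z => f z - g z) hr
  rw [h4] at h3
  rw [← ENNReal.div_eq_inv_mul, ENNReal.lt_div_iff_mul_lt (Or.inl hne) (Or.inl hnt),
    mul_comm] at hgl
  exact absurd (h3.trans_lt hgl) (lt_irrefl _)

theorem closureIsAll_iff {p : ℝ} :
    ClosureIsAll p ↔ ∀ f : ℂ → ℂ, MemLp f (ENNReal.ofReal p) volume → D p f = 0 := by
  constructor
  · intro h f hf
    refine le_antisymm (le_of_forall_gt fun x hx => ?_) zero_le
    obtain ⟨g, hg, hgp, hgl⟩ := h f hf x hx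
    exact (D_le hg hgp).trans_lt hgl
  · intro h f hf ε hε
    obtain ⟨g, hg, hgp, hgl⟩ := exists_of_D_lt (p := p) (f := f) (x := ε) (by rw [h f hf]; exact hε)
    exact ⟨g, hg, hgp, hgl⟩

end Run7.h462
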