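import Pool.Agent.Run7.h462.Diff
import Pool.Agent.Run7.h462.Density

open MeasureTheory ENNReal Filter Topology

namespace Run7.h462

theorem enorm_kern_rpow {q : ℝ} (hq : 0 < q) (z : ℂ) :
    ‖kern 0 z‖ₑ ^ q = ‖(‖z‖ ^ (-(2 * q)) : ℝ)‖ₑ := by
  rw [← ofReal_norm, ← ofReal_norm, norm_kern, sub_zero,
    ENNReal.ofReal_rpow_of_nonneg (by positivity) hq.le, Real.norm_of_nonneg (by positivity)]
  congr 1
  rw [← Real.rpow_natCast, ← Real.rpow_neg (norm_nonneg z), ← Real.rpow_mul (norm_nonneg z)]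
  congr 1
  push_cast
  ring

theorem lint_ball_zero {q : ℝ} (hq : 0 < q) (hq1 : q < 1) (R : ℝ) :
    ∫⁻ z in Metric.ball (0:ℂ) R, ‖kern 0 z‖ₑ ^ q < ∞ := by
  have h := integrableOn_ball_of_norm_le_rpow (μ := (volume : Measure ℂ))
    (f := fun z : ℂ => (‖z‖ ^ (-(2 * q)) : ℝ)) (C := 1) (α := 2 * q) (r := R)
    (by rw [Complex.finrank_real_complex]; norm_num)
    (by rw [Complex.finrank_real_complex]; push_cast; linarith)
    (Eventually.of_forall fun z => by
      rw [one_mul, Real.norm_of_nonneg (by positivity)])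
    ((measurable_norm.pow_const _).aestronglyMeasurable)
  have h2 := h.hasFiniteIntegral
  rw [hasFiniteIntegral_iff_enorm] at h2
  simpa only [enorm_kern_rpow hq] using h2

theorem lint_ball_kern {q : ℝ} (hq : 0 < q) (hq1 : q < 1) (a : ℂ) (R : ℝ) :
    ∫⁻ z in Metric.ball (0:ℂ) R, ‖kern a z‖ₑ ^ q < ∞ := by
  have h0 := lint_ball_zero hq hq1 (R + ‖a‖)
  rw [← lintegral_indicator Metric.isOpen_ball.measurableSet] at h0 ⊢
  rw [← lintegral_sub_right_eq_self _ a] at h0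
  refine lt_of_le_of_lt (lintegral_mono fun z => ?_) h0
  by_cases hz : z ∈ Metric.ball (0:ℂ) R
  · have hz2 : z - a ∈ Metric.ball (0:ℂ) (R + ‖a‖) := by
      rw [mem_ball_zero_iff] at hz ⊢
      have := norm_sub_le z a
      linarith
    rw [Set.indicator_of_mem hz, Set.indicator_of_mem hz2, kern_eq]
  · rw [Set.indicator_of_notMem hz]; exact zero_le

theorem lint_ball_of_mem {q : ℝ} (hq : 0 < q) (hq1 : q < 1) {g : ℂ → ℂ} (hg : g ∈ XC) (R : ℝ) :
    ∫⁻ z in Metric.ball (0:ℂ) R, ‖g z‖ₑ ^ q < ∞ := by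
  have hm : ∀ {h : ℂ → ℂ}, h ∈ XC → Measurable h := fun h => measurable_of_mem h
  unfold XC at hg
  induction hg using Submodule.span_induction with
  | mem x h => obtain ⟨a, rfl⟩ := h; exact lint_ball_kern hq hq1 a R
  | zero => simp [hq]
  | add x y hx' hy' hx hy =>
    refine lt_of_le_of_lt ?_ (ENNReal.add_lt_top.2 ⟨hx, hy⟩)
    rw [← lintegral_add_left (((hm hx').enorm).pow_const q)]
    apply lintegral_mono
    intro z
    calc ‖(x + y) z‖ₑ ^ q ≤ (‖x z‖ₑ + ‖y z‖ₑ) ^ q :=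
          ENNReal.rpow_le_rpow (enorm_add_le _ _) hq.le
      _ ≤ _ := ENNReal.rpow_add_le_add_rpow _ _ hq.le hq1.le
  | smul a x _ hx =>
    have h1 : ∀ z, ‖(a • x) z‖ₑ ^ q = ‖a‖ₑ ^ q * ‖x z‖ₑ ^ q := by
      intro z
      rw [Pi.smul_apply, smul_eq_mul, enorm_mul, ENNReal.mul_rpow_of_nonneg _ _ hq.le]
    simp only [h1]
    rw [lintegral_const_mul' _ _ (ENNReal.rpow_ne_top_of_nonneg hq.le (by simp))]
    exact ENNReal.mul_lt_top (ENNReal.rpow_lt_top_of_nonneg hq.le (by simp)) hx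

theorem tendsto_kern (a : ℂ) : Tendsto (kern a) (cocompact ℂ) (𝓝 0) := by
  rw [tendsto_zero_iff_norm_tendsto_zero]
  simp only [norm_kern]
  have h1 : Tendsto (fun z : ℂ => ‖z - a‖) (cocompact ℂ) atTop := by
    have := tendsto_norm_cocompact_atTop (E := ℂ)
    refine tendsto_atTop_mono (f := fun z => ‖z‖ - ‖a‖) (fun z => norm_sub_norm_le z a) ?_
    exact tendsto_atTop_add_const_right _ _ this
  exact (tendsto_inv_atTop_zero.comp ((tendsto_pow_atTop (n := 2) (by norm_num)).comp h1))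

theorem tendsto_of_mem {g : ℂ → ℂ} (hg : g ∈ XC) : Tendsto g (cocompact ℂ) (𝓝 0) := by
  unfold XC at hg
  induction hg using Submodule.span_induction with
  | mem x h => obtain ⟨a, rfl⟩ := h; exact tendsto_kern a
  | zero => exact tendsto_const_nhds
  | add x y _ _ hx hy =>
    have := hx.add hy
    rw [add_zero] at this
    exact this
  | smul a x _ hx =>
    have := hx.const_smul a
    rw [smul_zero] at this
    exact this

theorem exists_norm_le_one {g : ℂ → ℂ} (hg : g ∈ XC) : ∃ R : ℝ, ∀ z, R ≤ ‖z‖ → ‖g z‖ ≤ 1 := by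
  have h := (tendsto_of_mem hg).eventually (Metric.ball_mem_nhds (0:ℂ) one_pos)
  rw [← Metric.cobounded_eq_cocompact, ← comap_norm_atTop, eventually_comap] at h
  obtain ⟨R, hR⟩ := eventually_atTop.1 h
  refine ⟨R, fun z hz => ?_⟩
  have := hR ‖z‖ hz z rfl
  rw [dist_zero_right] at this
  exact this.le

theorem memLp_up {p q : ℝ} (hp : 0 < p) (hpq : p ≤ q) (hq1 : q < 1) {g : ℂ → ℂ} (hg : g ∈ XC)
    (hgp : MemLp g (ENNReal.ofReal p) volume) : MemLp g (ENNReal.ofReal q) volume := by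
  have hq : 0 < q := hp.trans_le hpq
  rw [memLp_iff hq]
  refine ⟨(measurable_of_mem hg).aestronglyMeasurable, ?_⟩
  obtain ⟨R, hR⟩ := exists_norm_le_one hg
  unfold N
  rw [← lintegral_add_compl _ (Metric.isOpen_ball (x := (0:ℂ)) (ε := R)).measurableSet]
  refine ENNReal.add_lt_top.2 ⟨lint_ball_of_mem hq hq1 hg R, ?_⟩
  have h1 : ∫⁻ z in (Metric.ball (0:ℂ) R)ᶜ, ‖g z‖ₑ ^ p < ∞ :=
    lt_of_le_of_lt (setLIntegral_le_lintegral _ _) ((memLp_iff hp).1 hgp).2
  refine lt_of_le_of_lt (setLIntegral_mono' (Metric.isOpen_ball.measurableSet.compl)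
    fun z hz => ?_) h1
  rw [Set.mem_compl_iff, mem_ball_zero_iff, not_lt] at hz
  refine ENNReal.rpow_le_rpow_of_exponent_ge ?_ hpq
  have := hR z hz
  rw [← ofReal_norm, ENNReal.ofReal_le_one]
  exact this

/-- Integrability at infinity. -/
theorem far_fin {C R : ℝ} (hC : 0 ≤ C) (hR : 0 < R) {s : ℕ} {q : ℝ} (hq : 0 < q)
    (hs : 2 < s * q) :
    ∫⁻ z in (Metric.ball (0:ℂ) R)ᶜ, (ENNReal.ofReal (C / ‖z‖ ^ s)) ^ q < ∞ := by
  have h0 := finite_integral_one_add_norm (E := ℂ) (μ := volume) (r := s * q)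
    (by rw [Complex.finrank_real_complex]; push_cast; linarith)
  set K : ℝ := (C * ((1 + R) / R) ^ s) ^ q with hK
  have hK0 : 0 ≤ K := by positivity
  have h1 : ∫⁻ z : ℂ, ENNReal.ofReal K * ENNReal.ofReal ((1 + ‖z‖) ^ (-((s:ℝ) * q))) < ∞ := by
    rw [lintegral_const_mul' _ _ ENNReal.ofReal_ne_top]
    exact ENNReal.mul_lt_top ENNReal.ofReal_lt_top h0
  refine lt_of_le_of_lt ?_ h1
  refine le_trans ?_ (setLIntegral_le_lintegral (Metric.ball (0:ℂ) R)ᶜ _)
  refine setLIntegral_mono' (Metric.isOpen_ball.measurableSet.compl) fun z hz => ?_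
  rw [Set.mem_compl_iff, mem_ball_zero_iff, not_lt] at hz
  have hz0 : 0 < ‖z‖ := hR.trans_le hz
  rw [← ENNReal.ofReal_mul hK0, ENNReal.ofReal_rpow_of_nonneg (by positivity) hq.le]
  refine ENNReal.ofReal_le_ofReal ?_
  have h2 : K * (1 + ‖z‖) ^ (-((s:ℝ) * q)) = (C * ((1 + R) / R) ^ s / (1 + ‖z‖) ^ s) ^ q := by
    rw [hK, Real.rpow_neg (by positivity), Real.rpow_mul (by positivity), Real.rpow_natCast,
      Real.div_rpow (by positivity) (by positivity), ← div_eq_mul_inv]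
  rw [h2]
  refine Real.rpow_le_rpow (by positivity) ?_ hq.le
  have h3 : C * ((1 + R) / R) ^ s / (1 + ‖z‖) ^ s = C / (R * (1 + ‖z‖) / (1 + R)) ^ s := by
    rw [div_pow, div_pow, mul_pow]
    field_simp
  rw [h3]
  have h4 : R * (1 + ‖z‖) / (1 + R) ≤ ‖z‖ := by
    rw [div_le_iff₀ (by positivity)]
    nlinarith
  gcongr

/-- Non-integrability at infinity. -/
theorem far_inf {c R : ℝ} (hc : 0 < c) (hR : 0 < R) {q : ℝ} (hq : 0 < q) (hq1 : q ≤ 1)
    {g : ℂ → ℂ} (hg : ∀ z, R ≤ ‖z‖ → c / ‖z‖ ^ 2 ≤ ‖g z‖) (hfin : N q g < ∞) : False := by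
  set f : ℝ → ℝ := (Set.Ioi R).indicator fun y => y ^ (-(2 * q)) with hf
  have h1 : Integrable (fun z : ℂ => f ‖z‖) volume := by
    refine ⟨?_, ?_⟩
    · have : Measurable f := by
        rw [hf]
        exact (measurable_id.pow_const _).indicator measurableSet_Ioi
      exact (this.comp measurable_norm).aestronglyMeasurable
    · rw [hasFiniteIntegral_iff_enorm]
      have h2 : ∫⁻ z : ℂ, ENNReal.ofReal ((c ^ q)⁻¹) * ‖g z‖ₑ ^ q < ∞ := by
        rw [lintegral_const_mul' _ _ ENNReal.ofReal_ne_top]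
        exact ENNReal.mul_lt_top ENNReal.ofReal_lt_top hfin
      refine lt_of_le_of_lt (lintegral_mono fun z => ?_) h2
      by_cases hz : R < ‖z‖
      · have hz0 : 0 < ‖z‖ := hR.trans hz
        rw [hf, Set.indicator_of_mem (by exact hz), ← ofReal_norm, ← ofReal_norm,
          Real.norm_of_nonneg (by positivity),
          ENNReal.ofReal_rpow_of_nonneg (norm_nonneg _) hq.le, ← ENNReal.ofReal_mul (by positivity)]
        refine ENNReal.ofReal_le_ofReal ?_
        have h3 := Real.rpow_le_rpow (by positivity) (hg z hz.le) hq.le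
        rw [Real.div_rpow hc.le (by positivity), ← Real.rpow_natCast, ← Real.rpow_mul hz0.le] at h3
        rw [Real.rpow_neg hz0.le]
        calc (‖z‖ ^ (2 * q))⁻¹ = (c ^ q)⁻¹ * (c ^ q / ‖z‖ ^ (((2:ℕ):ℝ) * q)) := by
              push_cast; field_simp
          _ ≤ _ := by gcongr
      · rw [hf, Set.indicator_of_notMem (by exact hz)]
        simp
  rw [integrable_fun_norm_addHaar volume (f := f)] at h1
  have h4 : IntegrableOn (fun y : ℝ => y ^ (1 - 2 * q)) (Set.Ioi R) := by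
    have h5 := h1.mono_set (Set.Ioi_subset_Ioi hR.le)
    refine h5.congr_fun (fun y hy => ?_) measurableSet_Ioi
    have hy0 : 0 < y := hR.trans hy
    simp only [Complex.finrank_real_complex, hf, smul_eq_mul]
    rw [Set.indicator_of_mem hy]
    simp only [Nat.add_one_sub_one, pow_one]
    rw [sub_eq_add_neg, Real.rpow_add hy0, Real.rpow_one]
  rw [integrableOn_Ioi_rpow_iff hR] at h4
  linarith

theorem sum_near {S : Finset ℂ} (c : ℂ → ℂ) : ∃ C R : ℝ, 0 ≤ C ∧ 0 < R ∧ ∀ z, R ≤ ‖z‖ →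
    ‖∑ a ∈ S, c a * kern a z - (∑ a ∈ S, c a) * kern 0 z‖ ≤ C / ‖z‖ ^ 3 := by
  classical
  induction S using Finset.induction_on with
  | empty => exact ⟨0, 1, le_rfl, one_pos, fun z _ => by simp⟩
  | insert a s ha ih =>
    obtain ⟨C, R, hC, hR, h⟩ := ih
    obtain ⟨C', R', hC', hR', h'⟩ := diff_kern 1 a 0
    refine ⟨C + ‖c a‖ * C', max R R', by positivity, lt_max_of_lt_left hR, fun z hz => ?_⟩
    have h1 := h z ((le_max_left _ _).trans hz)
    have h2 := h' 0 z (by simp) ((le_max_right _ _).trans hz)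
    simp only [Function.iterate_one, dv] at h2
    rw [← kern_eq, norm_sub_rev] at h2
    rw [Finset.sum_insert ha, Finset.sum_insert ha]
    have h3 : c a * kern a z + ∑ a ∈ s, c a * kern a z - (c a + ∑ a ∈ s, c a) * kern 0 z
      = (∑ a ∈ s, c a * kern a z - (∑ a ∈ s, c a) * kern 0 z)
        + c a * (kern a z - kern 0 z) := by ring
    rw [h3]
    refine (norm_add_le _ _).trans ?_
    rw [add_div, norm_mul, mul_div_assoc]
    gcongr

/-- Elements of `XC ∩ L^q`, `q ≤ 1`, decay like `|z|^{-3}`. -/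
theorem far_of_memLp {q : ℝ} (hq : 0 < q) (hq1 : q ≤ 1) {g : ℂ → ℂ} (hg : g ∈ XC)
    (hgp : MemLp g (ENNReal.ofReal q) volume) :
    ∃ C R : ℝ, 0 ≤ C ∧ 0 < R ∧ ∀ z, R ≤ ‖z‖ → ‖g z‖ ≤ C / ‖z‖ ^ 3 := by
  obtain ⟨S, c, hrep⟩ := exists_rep hg
  obtain ⟨C, R, hC, hR, h⟩ := sum_near (S := S) c
  simp only [← hrep] at h
  by_cases hs : ∑ a ∈ S, c a = 0
  · rw [hs] at h
    refine ⟨C, R, hC, hR, fun z hz => ?_⟩
    have := h z hz
    simpa using this
  · exfalso
    set s := ∑ a ∈ S, c a with hs'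
    have hs0 : 0 < ‖s‖ := norm_pos_iff.2 hs
    refine far_inf (c := ‖s‖ / 2) (R := max R (2 * C / ‖s‖)) (by positivity)
      (lt_max_of_lt_left hR) hq hq1 (fun z hz => ?_) ((memLp_iff hq).1 hgp).2
    have hz1 : R ≤ ‖z‖ := (le_max_left _ _).trans hz
    have hz2 : 2 * C / ‖s‖ ≤ ‖z‖ := (le_max_right _ _).trans hz
    have hz0 : 0 < ‖z‖ := hR.trans_le hz1
    have h1 := h z hz1
    have h2 : ‖s * kern 0 z‖ = ‖s‖ / ‖z‖ ^ 2 := by
      rw [norm_mul, norm_kern, sub_zero, div_eq_mul_inv]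
    have h3 : C / ‖z‖ ^ 3 ≤ ‖s‖ / 2 / ‖z‖ ^ 2 := by
      rw [div_le_iff₀ hs0] at hz2
      rw [div_le_div_iff₀ (by positivity) (by positivity)]
      have : 0 ≤ ‖z‖ ^ 2 := by positivity
      nlinarith
    have h4 := norm_sub_norm_le (s * kern 0 z) (s * kern 0 z - g z)
    rw [sub_sub_self, norm_sub_rev (s * kern 0 z) (g z)] at h4
    have h5 : ‖s‖ / ‖z‖ ^ 2 = ‖s‖ / 2 / ‖z‖ ^ 2 + ‖s‖ / 2 / ‖z‖ ^ 2 := by ring
    linarith

end Run7.h462
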