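import Pool.Agent.Run7.h462.Far

open MeasureTheory ENNReal Filter Topology

namespace Run7.h462

theorem rpow_le_add (x : ℝ≥0∞) {p q r : ℝ} (hpq : p ≤ q) (hqr : q ≤ r) :
    x ^ q ≤ x ^ p + x ^ r := by
  rcases le_total x 1 with h | h
  · exact (ENNReal.rpow_le_rpow_of_exponent_ge h hpq).trans (le_add_right le_rfl)
  · exact (ENNReal.rpow_le_rpow_of_exponent_le h hqr).trans (le_add_left le_rfl)

theorem tendsto_N {p r : ℝ} (hp : 0 < p) {h : ℂ → ℂ} (hm : Measurable h)
    (h1 : N p h < ∞) (h2 : N r h < ∞) :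
    Tendsto (fun q => N q h) (𝓝[Set.Icc p r] p) (𝓝 (N p h)) := by
  unfold N at *
  refine tendsto_lintegral_filter_of_dominated_convergence
    (fun z => ‖h z‖ₑ ^ p + ‖h z‖ₑ ^ r)
    (Eventually.of_forall fun q => hm.enorm.pow_const q) ?_ ?_ ?_
  · filter_upwards [self_mem_nhdsWithin] with q hq
    exact Eventually.of_forall fun z => rpow_le_add _ hq.1 hq.2
  · rw [lintegral_add_left (hm.enorm.pow_const p)]
    exact (ENNReal.add_lt_top.2 ⟨h1, h2⟩).ne
  · refine Eventually.of_forall fun z => ?_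
    have h3 : Tendsto (fun q : ℝ => ENNReal.ofReal (‖h z‖ ^ q)) (𝓝[Set.Icc p r] p)
        (𝓝 (ENNReal.ofReal (‖h z‖ ^ p))) := by
      refine ENNReal.tendsto_ofReal (Tendsto.mono_left ?_ nhdsWithin_le_nhds)
      exact (Real.continuousAt_const_rpow' hp.ne').tendsto
    rw [← ENNReal.ofReal_rpow_of_nonneg (norm_nonneg _) hp.le, ofReal_norm] at h3
    refine h3.congr' ?_
    filter_upwards [self_mem_nhdsWithin] with q hq
    rw [← ENNReal.ofReal_rpow_of_nonneg (norm_nonneg _) (hp.le.trans hq.1), ofReal_norm]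

/-- The set of exponents is open to the right. -/
theorem right_open {p : ℝ} (hp : 0 < p) (hp1 : p < 1) (h : ClosureIsAll p) :
    ∃ q, p < q ∧ q < 1 ∧ ∀ r, p ≤ r → r < q → ClosureIsAll r := by
  rw [closureIsAll_iff_sq hp hp1.le] at h
  obtain ⟨g, hg, hgp, hlt⟩ := exists_of_D_lt (p := p) (f := sq) (x := 1) (by rw [h]; simp)
  set r : ℝ := (p + 1) / 2 with hr
  have hpr : p < r := by rw [hr]; linarith
  have hr1 : r < 1 := by rw [hr]; linarith
  have hgr := memLp_up hp hpr.le hr1 hg hgp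
  have h3 := tendsto_N (r := r) hp (h := fun z => sq z - g z)
    (measurable_sq.sub (measurable_of_mem hg))
    ((memLp_iff hp).1 ((memLp_sq hp).sub hgp)).2
    ((memLp_iff (hp.trans hpr)).1 ((memLp_sq (hp.trans hpr)).sub hgr)).2
  have h4 := h3.eventually (gt_mem_nhds hlt)
  rw [eventually_nhdsWithin_iff, Metric.eventually_nhds_iff] at h4
  obtain ⟨ε, hε, h5⟩ := h4
  refine ⟨min (p + ε) r, lt_min (by linarith) hpr, (min_le_right _ _).trans_lt hr1,
    fun q hpq hq => ?_⟩
  have hq1 : q < p + ε := hq.trans_le (min_le_left _ _)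
  have hq2 : q < r := hq.trans_le (min_le_right _ _)
  refine closureIsAll_of_lt (hp.trans_le hpq) (hq2.trans hr1).le hg
    (memLp_up hp hpq (hq2.trans hr1) hg hgp) (h5 ?_ ⟨hpq, hq2.le⟩)
  rw [Real.dist_eq, abs_of_nonneg (by linarith)]
  linarith

end Run7.h462
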