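import Pool.Agent.Run7.h462.Dist

open MeasureTheory ENNReal Filter Topology

namespace Run7.h462

/-- The half-open unit square. -/
def Q : Set ℂ := {z | (0 ≤ z.re ∧ z.re < 1) ∧ (0 ≤ z.im ∧ z.im < 1)}

theorem measurableSet_Q : MeasurableSet Q := by
  unfold Q
  refine MeasurableSet.inter (MeasurableSet.inter ?_ ?_) (MeasurableSet.inter ?_ ?_)
  · exact measurableSet_le measurable_const Complex.measurable_re
  · exact measurableSet_lt Complex.measurable_re measurable_const
  · exact measurableSet_le measurable_const Complex.measurable_im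
  · exact measurableSet_lt Complex.measurable_im measurable_const

theorem volume_Q : volume Q = 1 := by
  have h := Complex.volume_preserving_equiv_real_prod.measure_preimage_equiv
    (Set.Ico (0:ℝ) 1 ×ˢ Set.Ico (0:ℝ) 1)
  have h2 : (Complex.measurableEquivRealProd ⁻¹' (Set.Ico (0:ℝ) 1 ×ˢ Set.Ico (0:ℝ) 1)) = Q := by
    ext z; simp [Q, Complex.measurableEquivRealProd]
  rw [← h2, h, Measure.volume_eq_prod, Measure.prod_prod]
  simp

/-- The indicator of the half-open unit square. -/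
noncomputable def sq : ℂ → ℂ := Q.indicator fun _ => 1

theorem measurable_sq : Measurable sq := measurable_const.indicator measurableSet_Q

theorem sq_of_mem {z : ℂ} (h : z ∈ Q) : sq z = 1 := Set.indicator_of_mem h _

theorem sq_of_notMem {z : ℂ} (h : z ∉ Q) : sq z = 0 := Set.indicator_of_notMem h _

theorem N_sq {p : ℝ} (hp : 0 < p) : N p sq = 1 := by
  have : (fun z => ‖sq z‖ₑ ^ p) = Q.indicator fun _ => (1 : ℝ≥0∞) := by
    funext z
    by_cases h : z ∈ Q
    · simp [sq_of_mem h, h]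
    · simp [sq_of_notMem h, h, hp]
  unfold N
  rw [this, lintegral_indicator measurableSet_Q]
  simp [volume_Q]

/-- The lattice point of an index. -/
noncomputable def lat (k : ℤ × ℤ) : ℂ := ⟨k.1, k.2⟩

/-- The index of the unit cell of a point. -/
noncomputable def cell (z : ℂ) : ℤ × ℤ := (⌊z.re⌋, ⌊z.im⌋)

theorem sub_lat_mem {z : ℂ} {k : ℤ × ℤ} : z - lat k ∈ Q ↔ cell z = k := by
  unfold Q lat cell
  simp only [Set.mem_ofPred_eq, Complex.sub_re, Complex.sub_im]
  constructor
  · rintro ⟨⟨h1, h2⟩, h3, h4⟩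
    ext
    · simp only [Int.floor_eq_iff]; constructor <;> linarith
    · simp only [Int.floor_eq_iff]; constructor <;> linarith
  · rintro rfl
    have h1 := Int.floor_le z.re
    have h2 := Int.lt_floor_add_one z.re
    have h3 := Int.floor_le z.im
    have h4 := Int.lt_floor_add_one z.im
    refine ⟨⟨?_, ?_⟩, ?_, ?_⟩ <;> linarith

/-- A step function on the grid of mesh `1/r`. -/
noncomputable def step (r : ℝ) (K : Finset (ℤ × ℤ)) (c : ℤ × ℤ → ℂ) (z : ℂ) : ℂ :=
  ∑ k ∈ K, c k * sq (r • z - lat k)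

theorem measurable_sqk (r : ℝ) (k : ℤ × ℤ) : Measurable fun z : ℂ => sq (r • z - lat k) :=
  measurable_sq.comp ((measurable_const_smul r).sub_const _)

theorem measurable_step (r : ℝ) (K : Finset (ℤ × ℤ)) (c : ℤ × ℤ → ℂ) :
    Measurable (step r K c) := by
  unfold step
  exact Finset.measurable_fun_sum K fun k _ => (measurable_sqk r k).const_mul _

theorem step_eq {r : ℝ} {K : Finset (ℤ × ℤ)} {c : ℤ × ℤ → ℂ} (z : ℂ) :
    step r K c z = if cell (r • z) ∈ K then c (cell (r • z)) else 0 := by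
  unfold step
  by_cases h : cell (r • z) ∈ K
  · rw [if_pos h, Finset.sum_eq_single_of_mem _ h]
    · rw [sq_of_mem (sub_lat_mem.2 rfl), mul_one]
    · intro k _ hk
      rw [sq_of_notMem (fun h' => hk (sub_lat_mem.1 h').symm), mul_zero]
  · rw [if_neg h]
    refine Finset.sum_eq_zero fun k hk => ?_
    rw [sq_of_notMem (fun h' => h (by rw [sub_lat_mem.1 h']; exact hk)), mul_zero]

theorem enorm_step {p : ℝ} (hp : 0 < p) {r : ℝ} {K : Finset (ℤ × ℤ)} {c : ℤ × ℤ → ℂ} (z : ℂ) :
    ‖step r K c z‖ₑ ^ p = ∑ k ∈ K, ‖c k‖ₑ ^ p * ‖sq (r • z - lat k)‖ₑ ^ p := by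
  rw [step_eq]
  by_cases h : cell (r • z) ∈ K
  · rw [if_pos h, Finset.sum_eq_single_of_mem _ h]
    · rw [sq_of_mem (sub_lat_mem.2 rfl)]; simp
    · intro k _ hk
      rw [sq_of_notMem (fun h' => hk (sub_lat_mem.1 h').symm)]
      simp [hp]
  · rw [if_neg h]
    rw [Finset.sum_eq_zero]
    · simp [hp]
    · intro k hk
      rw [sq_of_notMem (fun h' => h (by rw [sub_lat_mem.1 h']; exact hk))]
      simp [hp]

theorem N_sqk {p : ℝ} (hp : 0 < p) {r : ℝ} (hr : 0 < r) (k : ℤ × ℤ) :
    N p (fun z => sq (r • z - lat k)) = ENNReal.ofReal (r ^ 2)⁻¹ := by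
  have h := N_dilate p (fun z => sq (z - lat k)) hr
  rw [h, N_translate p sq, N_sq hp, mul_one]

theorem N_step {p : ℝ} (hp : 0 < p) {r : ℝ} (hr : 0 < r) (K : Finset (ℤ × ℤ))
    (c : ℤ × ℤ → ℂ) :
    N p (step r K c) = ∑ k ∈ K, ‖c k‖ₑ ^ p * ENNReal.ofReal (r ^ 2)⁻¹ := by
  unfold N
  simp only [enorm_step hp]
  rw [lintegral_finsetSum' _ fun k _ =>
    (((measurable_sqk r k).enorm.pow_const p).const_mul _).aemeasurable]
  refine Finset.sum_congr rfl fun k _ => ?_
  rw [lintegral_const_mul' _ _ (ENNReal.rpow_ne_top_of_nonneg hp.le (by simp))]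
  congr 1
  exact N_sqk hp hr k

theorem D_zero {p : ℝ} (hp : 0 < p) : D p (fun _ => 0) = 0 :=
  le_antisymm ((D_le_N _ _).trans (N_zero hp).le) zero_le

theorem D_sum_le {p : ℝ} (hp : 0 < p) (hp1 : p ≤ 1) {ι : Type*} (K : Finset ι)
    (F : ι → ℂ → ℂ) (hF : ∀ k ∈ K, AEStronglyMeasurable (F k) volume) :
    D p (fun z => ∑ k ∈ K, F k z) ≤ ∑ k ∈ K, D p (F k) := by
  classical
  induction K using Finset.induction_on with
  | empty => simp [D_zero hp]
  | insert a s ha ih =>
    simp only [Finset.sum_insert ha]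
    refine (D_add_le hp hp1 (hF a (Finset.mem_insert_self _ _))).trans ?_
    exact add_le_add le_rfl (ih fun k hk => hF k (Finset.mem_insert_of_mem hk))

theorem D_step_le {p : ℝ} (hp : 0 < p) (hp1 : p ≤ 1) {r : ℝ} (hr : 0 < r)
    (K : Finset (ℤ × ℤ)) (c : ℤ × ℤ → ℂ) :
    D p (step r K c) ≤ D p sq * N p (step r K c) := by
  rw [N_step hp hr, Finset.mul_sum]
  refine (D_sum_le hp hp1 K (fun k z => c k * sq (r • z - lat k)) fun k _ =>
    ((measurable_sqk r k).const_mul _).aestronglyMeasurable).trans ?_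
  refine Finset.sum_le_sum fun k _ => ?_
  refine (D_smul_le hp (c k) _).trans ?_
  have h1 := D_dilate_le hp (fun z => sq (z - lat k)) hr
  have h2 := D_translate_le p sq (lat k)
  calc ‖c k‖ₑ ^ p * D p (fun z => sq (r • z - lat k))
      ≤ ‖c k‖ₑ ^ p * (ENNReal.ofReal (r ^ 2)⁻¹ * D p sq) := by
        gcongr
        exact h1.trans (by gcongr)
    _ = _ := by ring

end Run7.h462
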