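import Pool.Agent.Run7.h462.Far

open MeasureTheory ENNReal Filter Topology

namespace Run7.h462

/-! ### iterated differences -/

theorem dv_iter_sub (v : ℂ) (n : ℕ) : ∀ f g : ℂ → ℂ,
    (dv v)^[n] (fun z => f z - g z) = fun z => (dv v)^[n] f z - (dv v)^[n] g z := by
  induction n with
  | zero => intro f g; rfl
  | succ n ih =>
    intro f g
    rw [Function.iterate_succ_apply, Function.iterate_succ_apply, Function.iterate_succ_apply,
      ← ih]
    congr 1
    funext z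
    simp only [dv]
    ring

theorem dv_iter_sum (v : ℂ) (n : ℕ) {ι : Type*} (K : Finset ι) (c : ι → ℂ) :
    ∀ F : ι → ℂ → ℂ, (dv v)^[n] (fun z => ∑ k ∈ K, c k * F k z)
      = fun z => ∑ k ∈ K, c k * (dv v)^[n] (F k) z := by
  induction n with
  | zero => intro F; rfl
  | succ n ih =>
    intro F
    simp only [Function.iterate_succ_apply]
    rw [← ih]
    congr 1
    funext z
    simp only [dv, mul_sub, Finset.sum_sub_distrib]

theorem measurable_dv {v : ℂ} {f : ℂ → ℂ} (hf : Measurable f) : Measurable (dv v f) :=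
  hf.sub (hf.comp (measurable_id.sub_const v))

theorem measurable_iter {v : ℂ} (n : ℕ) : ∀ {f : ℂ → ℂ}, Measurable f →
    Measurable ((dv v)^[n] f) := by
  induction n with
  | zero => intro f hf; exact hf
  | succ n ih => intro f hf; rw [Function.iterate_succ_apply]; exact ih (measurable_dv hf)

theorem mem_iter {v : ℂ} (n : ℕ) : ∀ {f : ℂ → ℂ}, f ∈ XC → (dv v)^[n] f ∈ XC := by
  induction n with
  | zero => intro f hf; exact hf
  | succ n ih =>
    intro f hf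
    rw [Function.iterate_succ_apply]
    exact ih (XC.sub_mem hf (mem_translate hf v))

theorem N_iter_le {p : ℝ} (hp : 0 < p) (hp1 : p ≤ 1) {v : ℂ} (n : ℕ) : ∀ {f : ℂ → ℂ},
    Measurable f → N p ((dv v)^[n] f) ≤ 2 ^ n * N p f := by
  induction n with
  | zero => intro f hf; simp
  | succ n ih =>
    intro f hf
    rw [Function.iterate_succ_apply]
    refine (ih (measurable_dv hf)).trans ?_
    have h1 : N p (dv v f) ≤ N p f + N p f := by
      have h := N_add_le hp hp1 (f := f) (g := fun z => - f (z - v)) hf.aestronglyMeasurable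
      have h2 : N p (fun z => - f (z - v)) = N p f := by
        rw [N_neg p (fun z => f (z - v)), N_translate p f v]
      rw [h2] at h
      have h3 : dv v f = fun z => f z + - f (z - v) := by
        funext z; simp only [dv, sub_eq_add_neg]
      rw [h3]; exact h
    calc 2 ^ n * N p (dv v f) ≤ 2 ^ n * (N p f + N p f) := by gcongr
      _ = 2 ^ (n + 1) * N p f := by ring

theorem iter_eq_zero {v : ℂ} {ρ : ℝ} (n : ℕ) : ∀ {f : ℂ → ℂ}, (∀ z, ρ ≤ ‖z‖ → f z = 0) →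
    ∀ z, ρ + n * ‖v‖ ≤ ‖z‖ → (dv v)^[n] f z = 0 := by
  intro f hf
  induction n generalizing ρ f with
  | zero => intro z hz; exact hf z (by simpa using hz)
  | succ n ih =>
    intro z hz
    rw [Function.iterate_succ_apply]
    refine ih (ρ := ρ + ‖v‖) (fun w hw => ?_) z (by push_cast at hz; linarith)
    unfold dv
    have h0 := norm_nonneg v
    have h1 := norm_sub_norm_le w v
    rw [hf w (by linarith), hf (w - v) (by linarith), sub_zero]

theorem iter_tendsto {v : ℂ} {ρ : ℝ} (n : ℕ) : ∀ {F : ℕ → ℂ → ℂ},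
    (∀ z, ρ ≤ ‖z‖ → Tendsto (fun m => F m z) atTop (𝓝 0)) →
    ∀ z, ρ + n * ‖v‖ ≤ ‖z‖ → Tendsto (fun m => (dv v)^[n] (F m) z) atTop (𝓝 0) := by
  intro f hf
  induction n generalizing ρ f with
  | zero => intro z hz; exact hf z (by simpa using hz)
  | succ n ih =>
    intro z hz
    simp only [Function.iterate_succ_apply]
    refine ih (ρ := ρ + ‖v‖) (f := fun m => dv v (f m)) (fun w hw => ?_) z
      (by push_cast at hz; linarith)
    unfold dv
    have h0 := norm_nonneg v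
    have h1 := norm_sub_norm_le w v
    have h2 := (hf w (by linarith)).sub (hf (w - v) (by linarith))
    rwa [sub_zero] at h2

/-! ### tiling -/

/-- The indices of the cells of mesh `1/n` in the unit square. -/
noncomputable def Kn (n : ℕ) : Finset (ℤ × ℤ) := Finset.Ico (0:ℤ) n ×ˢ Finset.Ico (0:ℤ) n

theorem card_Kn (n : ℕ) : (Kn n).card = n ^ 2 := by
  unfold Kn; rw [Finset.card_product]; simp [pow_two]

theorem norm_lat_le {n : ℕ} {k : ℤ × ℤ} (hk : k ∈ Kn n) : ‖lat k‖ ≤ 2 * n := by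
  unfold Kn at hk
  rw [Finset.mem_product, Finset.mem_Ico, Finset.mem_Ico] at hk
  obtain ⟨⟨h1, h2⟩, h3, h4⟩ := hk
  refine (Complex.norm_le_abs_re_add_abs_im _).trans ?_
  unfold lat
  simp only
  have h1' : (0:ℝ) ≤ k.1 := by exact_mod_cast h1
  have h2' : (k.1:ℝ) ≤ n := by exact_mod_cast h2.le
  have h3' : (0:ℝ) ≤ k.2 := by exact_mod_cast h3
  have h4' : (k.2:ℝ) ≤ n := by exact_mod_cast h4.le
  rw [abs_of_nonneg h1', abs_of_nonneg h3']
  linarith

/-- The tiled function. -/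
noncomputable def G (g : ℂ → ℂ) (n : ℕ) : ℂ → ℂ := fun z => ∑ k ∈ Kn n, g ((n:ℝ) • z - lat k)

theorem sq_eq {n : ℕ} (hn : 0 < n) (z : ℂ) : sq z = ∑ k ∈ Kn n, sq ((n:ℝ) • z - lat k) := by
  have hn' : (0:ℝ) < n := by exact_mod_cast hn
  have h := step_eq (r := n) (K := Kn n) (c := fun _ => 1) z
  unfold step at h
  simp only [one_mul] at h
  rw [h]
  have hiff : cell ((n:ℝ) • z) ∈ Kn n ↔ z ∈ Q := by
    unfold cell Kn Q
    rw [Finset.mem_product, Finset.mem_Ico, Finset.mem_Ico]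
    simp only [Complex.real_smul, Complex.re_ofReal_mul, Complex.im_ofReal_mul, Int.floor_nonneg,
      Int.floor_lt, Int.cast_natCast, Set.mem_ofPred_eq]
    rw [mul_nonneg_iff_of_pos_left hn', mul_nonneg_iff_of_pos_left hn',
      mul_lt_iff_lt_one_right hn', mul_lt_iff_lt_one_right hn']
  by_cases hz : z ∈ Q
  · rw [if_pos (hiff.2 hz), sq_of_mem hz]
  · rw [if_neg (fun h' => hz (hiff.1 h')), sq_of_notMem hz]

theorem N_sum_le {p : ℝ} (hp : 0 < p) (hp1 : p ≤ 1) {ι : Type*} (K : Finset ι)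
    (F : ι → ℂ → ℂ) (hF : ∀ k ∈ K, AEStronglyMeasurable (F k) volume) :
    N p (fun z => ∑ k ∈ K, F k z) ≤ ∑ k ∈ K, N p (F k) := by
  classical
  induction K using Finset.induction_on with
  | empty => simp [N_zero hp]
  | insert a s ha ih =>
    simp only [Finset.sum_insert ha]
    refine (N_add_le hp hp1 (hF a (Finset.mem_insert_self _ _))).trans ?_
    exact add_le_add le_rfl (ih fun k hk => hF k (Finset.mem_insert_of_mem hk))

theorem measurable_cell {g : ℂ → ℂ} (hg : Measurable g) (r : ℝ) (k : ℤ × ℤ) :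
    Measurable fun z : ℂ => g (r • z - lat k) :=
  hg.comp ((measurable_const_smul r).sub_const _)

theorem N_G_le {p : ℝ} (hp : 0 < p) (hp1 : p ≤ 1) {n : ℕ} (hn : 0 < n) {g : ℂ → ℂ}
    (hg : Measurable g) :
    N p (fun z => sq z - G g n z) ≤ N p (fun z => sq z - g z) := by
  have hn' : (0:ℝ) < n := by exact_mod_cast hn
  have h1 : (fun z => sq z - G g n z)
      = fun z => ∑ k ∈ Kn n, (sq ((n:ℝ) • z - lat k) - g ((n:ℝ) • z - lat k)) := by
    funext z
    rw [Finset.sum_sub_distrib, ← sq_eq hn]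
    rfl
  rw [h1]
  refine (N_sum_le hp hp1 (Kn n) (fun k z => sq ((n:ℝ) • z - lat k) - g ((n:ℝ) • z - lat k))
    fun k _ => ((measurable_cell measurable_sq _ k).sub
      (measurable_cell hg _ k)).aestronglyMeasurable).trans ?_
  have h2 : ∀ k ∈ Kn n, N p (fun z => sq ((n:ℝ) • z - lat k) - g ((n:ℝ) • z - lat k))
      = ENNReal.ofReal ((n:ℝ) ^ 2)⁻¹ * N p (fun z => sq z - g z) := by
    intro k _
    have h := N_dilate p (fun z => sq (z - lat k) - g (z - lat k)) hn'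
    rw [h]
    congr 1
    exact N_translate p (fun z => sq z - g z) (lat k)
  rw [Finset.sum_congr rfl h2, Finset.sum_const, card_Kn, nsmul_eq_mul, ← mul_assoc]
  have h3 : ((n ^ 2 : ℕ) : ℝ≥0∞) * ENNReal.ofReal ((n:ℝ) ^ 2)⁻¹ = 1 := by
    rw [← ENNReal.ofReal_natCast, ← ENNReal.ofReal_mul (by positivity)]
    push_cast
    rw [mul_inv_cancel₀ (by positivity)]
    simp
  rw [h3, one_mul]

theorem G_mem {g : ℂ → ℂ} (hg : g ∈ XC) {n : ℕ} (hn : 0 < n) : G g n ∈ XC := by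
  have hn' : (0:ℝ) < n := by exact_mod_cast hn
  have h : G g n = ∑ k ∈ Kn n, fun z => g ((n:ℝ) • z - lat k) := by
    funext z; rw [Finset.sum_apply]; rfl
  rw [h]
  exact XC.sum_mem fun k _ => mem_dilate (mem_translate hg (lat k)) hn'

/-- The tiled functions tend to zero away from the unit square. -/
theorem G_tendsto {g : ℂ → ℂ} {C R : ℝ}
    (h : ∀ z, R ≤ ‖z‖ → ‖g z‖ ≤ C / ‖z‖ ^ 3) (hC : 0 ≤ C) (z : ℂ) (hz : 3 ≤ ‖z‖) :
    Tendsto (fun n => G g n z) atTop (𝓝 0) := by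
  rw [tendsto_zero_iff_norm_tendsto_zero]
  have h1 : Tendsto (fun n : ℕ => C / (n:ℝ)) atTop (𝓝 0) := tendsto_const_div_atTop_nhds_zero_nat C
  refine squeeze_zero' (Eventually.of_forall fun _ => norm_nonneg _) ?_ h1
  filter_upwards [eventually_ge_atTop 1, eventually_ge_atTop ⌈R⌉₊] with n hn hnR
  have hn0 : (0:ℝ) < n := by exact_mod_cast hn
  have hnR' : R ≤ n := (Nat.le_ceil R).trans (by exact_mod_cast hnR)
  unfold G
  refine (norm_sum_le _ _).trans ?_
  have h2 : ∀ k ∈ Kn n, ‖g ((n:ℝ) • z - lat k)‖ ≤ C / (n:ℝ) ^ 3 := by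
    intro k hk
    have h3 : (n:ℝ) ≤ ‖(n:ℝ) • z - lat k‖ := by
      have h4 := norm_sub_norm_le ((n:ℝ) • z) (lat k)
      rw [norm_smul, Real.norm_of_nonneg hn0.le] at h4
      have h5 := norm_lat_le hk
      nlinarith
    refine (h _ (hnR'.trans h3)).trans ?_
    gcongr
  refine (Finset.sum_le_sum h2).trans (le_of_eq ?_)
  rw [Finset.sum_const, card_Kn, nsmul_eq_mul]
  push_cast
  field_simp

/-- Uniform decay of the differences of the tiled functions. -/
theorem iter_G_le (v : ℂ) (m : ℕ) : ∃ R : ℝ, 0 < R ∧ ∀ {g : ℂ → ℂ}, g ∈ XC →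
    ∃ C : ℝ, ∃ n₀ : ℕ, 0 ≤ C ∧ 0 < n₀ ∧
      ∀ n, n₀ ≤ n → ∀ z, R ≤ ‖z‖ → ‖(dv v)^[m] (G g n) z‖ ≤ C / ‖z‖ ^ (m + 2) := by
  obtain ⟨C0, R0, hC0, hR0, h0⟩ := diff_kern m v 3
  refine ⟨R0, hR0, fun {g} hg => ?_⟩
  obtain ⟨S, c, hrep⟩ := exists_rep hg
  refine ⟨(∑ a ∈ S, ‖c a‖) * C0, max 1 ⌈∑ a ∈ S, ‖a‖⌉₊, by positivity,
    lt_max_of_lt_left one_pos, fun n hn z hz => ?_⟩
  have hn1 : 1 ≤ n := (le_max_left _ _).trans hn
  have hn0 : (0:ℝ) < n := by exact_mod_cast hn1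
  have hnS : ∑ a ∈ S, ‖a‖ ≤ n :=
    (Nat.le_ceil _).trans (by exact_mod_cast (le_max_right _ _).trans hn)
  have h1 : G g n = fun z => ∑ x ∈ Kn n ×ˢ S,
      (c x.2 * (((n:ℝ) ^ 2)⁻¹ : ℝ)) * kern ((n:ℝ)⁻¹ • (x.2 + lat x.1)) z := by
    funext z
    rw [Finset.sum_product]
    unfold G
    refine Finset.sum_congr rfl fun k _ => ?_
    rw [hrep]
    refine Finset.sum_congr rfl fun a _ => ?_
    rw [kern_translate, kern_dilate _ hn0, Complex.real_smul]
    ring
  rw [h1, dv_iter_sum]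
  refine (norm_sum_le _ _).trans ?_
  have h2 : ∀ x ∈ Kn n ×ˢ S, ‖(c x.2 * (((n:ℝ) ^ 2)⁻¹ : ℝ)) *
      (dv v)^[m] (kern ((n:ℝ)⁻¹ • (x.2 + lat x.1))) z‖
      ≤ ((n:ℝ) ^ 2)⁻¹ * (‖c x.2‖ * (C0 / ‖z‖ ^ (m + 2))) := by
    intro x hx
    rw [Finset.mem_product] at hx
    have h3 : ‖(n:ℝ)⁻¹ • (x.2 + lat x.1)‖ ≤ 3 := by
      rw [norm_smul, norm_inv, Real.norm_of_nonneg hn0.le, inv_mul_le_iff₀ hn0]
      have h4 := norm_lat_le hx.1
      have h5 : ‖x.2‖ ≤ ∑ a ∈ S, ‖a‖ :=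
        Finset.single_le_sum (f := fun a => ‖a‖) (fun _ _ => norm_nonneg _) hx.2
      have h6 := norm_add_le x.2 (lat x.1)
      linarith
    have h4 := h0 _ z h3 hz
    rw [norm_mul, norm_mul, Complex.norm_real, Real.norm_of_nonneg (by positivity)]
    calc ‖c x.2‖ * ((n:ℝ) ^ 2)⁻¹ * ‖(dv v)^[m] (kern ((n:ℝ)⁻¹ • (x.2 + lat x.1))) z‖
        ≤ ‖c x.2‖ * ((n:ℝ) ^ 2)⁻¹ * (C0 / ‖z‖ ^ (m + 2)) := by gcongr
      _ = _ := by ring
  refine (Finset.sum_le_sum h2).trans (le_of_eq ?_)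
  rw [Finset.sum_product]
  simp only [Finset.sum_const, card_Kn, ← Finset.mul_sum, ← Finset.sum_mul, nsmul_eq_mul]
  push_cast
  field_simp

end Run7.h462
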